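import Pool.Agent.Q253.Thin.Int
import Pool.Agent.H177R2.SD.Avg

/-!
# Joint sifting systems of several windows: the average of the sieve product over the shifts
-/

set_option autoImplicit false

namespace Pool.Agent.Q204.CD

open Finset
open Pool.Agent.Y843.HS (Pr VV Pr_mem Pr_prime VV_split)
open Pool.Agent.Q253.Thin (SysZ VZ_nonneg VZ_le_one VZ_low)
open Pool.Agent.H177R2.SD.AvgAux (sum_prod)
open Pool.Agent.H177R2.SD (avg1)

/-- the classes `c` modulo `p` such that `h i - c` is in a class of `Z i p` for some `i` -/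
def Zh {m : ℕ} (Z : Fin m → ℕ → Finset ℕ) (h : Fin m → ℕ) (p : ℕ) : Finset ℕ :=
  (range p).filter (fun c => ∃ i, (h i + (p - 1) * c) % p ∈ Z i p)

theorem rot_mod {p b c : ℕ} (hp : 0 < p) : (b + (p - 1) * ((b + (p - 1) * c) % p)) % p = c % p := by
  obtain ⟨q, rfl⟩ : ∃ q, p = q + 1 := ⟨p - 1, by omega⟩
  rw [Nat.add_sub_cancel]
  have h1 : b + q * ((b + q * c) % (q + 1)) ≡ b + q * (b + q * c) [MOD (q + 1)] :=
    ((Nat.mod_modEq _ _).mul_left q).add_left b
  have h2 : b + q * (b + q * c) ≡ c [MOD (q + 1)] := by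
    have h3 : (b + q * (b + q * c)) + q * c * 1 = c * 0 + (b * (q + 1) + q * c * (q + 1)) := by ring
    have h4 : c + q * c = c * (q + 1) := by ring
    have h5 : (b + q * (b + q * c)) + q * c ≡ c + q * c [MOD (q + 1)] := by
      rw [h4]
      have h6 : (b + q * (b + q * c)) + q * c = (b + q * c) * (q + 1) := by ring
      rw [h6]
      exact (Nat.modEq_zero_iff_dvd.2 (dvd_mul_left _ _)).trans (Nat.modEq_zero_iff_dvd.2 (dvd_mul_left _ _)).symm
    exact Nat.ModEq.add_right_cancel' _ h5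
  exact h1.trans h2

theorem rot_card {p b : ℕ} (hp : 0 < p) (S : Finset ℕ) (hS : ∀ c ∈ S, c < p) :
    ((range p).filter (fun c => (b + (p - 1) * c) % p ∈ S)).card = S.card := by
  apply card_bij (fun c _ => (b + (p - 1) * c) % p)
  · intro c hc
    exact (mem_filter.1 hc).2
  · intro c hc d hd h
    have h1 := mem_range.1 (mem_filter.1 hc).1
    have h2 := mem_range.1 (mem_filter.1 hd).1
    have h3 := rot_mod (b := b) (c := c) hp
    have h4 := rot_mod (b := b) (c := d) hp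
    rw [h, h4, Nat.mod_eq_of_lt h1, Nat.mod_eq_of_lt h2] at h3
    exact h3.symm
  · intro s hs
    refine ⟨(b + (p - 1) * s) % p, ?_, ?_⟩
    · rw [mem_filter, mem_range, rot_mod hp, Nat.mod_eq_of_lt (hS s hs)]
      exact ⟨Nat.mod_lt _ hp, hs⟩
    · rw [rot_mod hp, Nat.mod_eq_of_lt (hS s hs)]

theorem shift_card {p b : ℕ} (hp : 0 < p) (S : Finset ℕ) (hS : ∀ c ∈ S, c < p) :
    ((range p).filter (fun c => (c + b) % p ∈ S)).card = S.card := by
  apply card_bij (fun c _ => (c + b) % p)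
  · intro c hc
    exact (mem_filter.1 hc).2
  · intro c hc d hd h
    have h1 := mem_range.1 (mem_filter.1 hc).1
    have h2 := mem_range.1 (mem_filter.1 hd).1
    have h3 : c ≡ d [MOD p] := Nat.ModEq.add_right_cancel' b h
    exact Nat.ModEq.eq_of_lt_of_lt h3 h1 h2
  · intro s hs
    refine ⟨(s + (p - 1) * b) % p, ?_, ?_⟩
    · rw [mem_filter, mem_range]
      refine ⟨Nat.mod_lt _ hp, ?_⟩
      have h1 : ((s + (p - 1) * b) % p + b) % p = s := by
        have h2 : (s + (p - 1) * b) % p + b ≡ s + (p - 1) * b + b [MOD p] := (Nat.mod_modEq _ _).add_right b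
        have h3 : s + (p - 1) * b + b = s + p * b := by
          obtain ⟨q, rfl⟩ : ∃ q, p = q + 1 := ⟨p - 1, by omega⟩
          rw [Nat.add_sub_cancel]
          ring
        rw [h3] at h2
        have h4 : (s + p * b) % p = s := by
          rw [Nat.add_mul_mod_self_left, Nat.mod_eq_of_lt (hS s hs)]
        have h5 : ((s + (p - 1) * b) % p + b) % p = (s + p * b) % p := h2
        rw [h5, h4]
      rw [h1]
      exact hs
    · have h2 : (s + (p - 1) * b) % p + b ≡ s + (p - 1) * b + b [MOD p] := (Nat.mod_modEq _ _).add_right b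
      have h3 : s + (p - 1) * b + b = s + p * b := by
        obtain ⟨q, rfl⟩ : ∃ q, p = q + 1 := ⟨p - 1, by omega⟩
        rw [Nat.add_sub_cancel]
        ring
      rw [h3] at h2
      have h5 : ((s + (p - 1) * b) % p + b) % p = (s + p * b) % p := h2
      rw [h5, Nat.add_mul_mod_self_left, Nat.mod_eq_of_lt (hS s hs)]

theorem mem_Zh {m : ℕ} {Z : Fin m → ℕ → Finset ℕ} {h : Fin m → ℕ} {p x : ℕ} (hp : 0 < p) :
    x % p ∈ Zh Z h p ↔ ∃ i, (h i + (p - 1) * x) % p ∈ Z i p := by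
  unfold Zh
  rw [mem_filter, mem_range]
  have e : ∀ i, (h i + (p - 1) * (x % p)) % p = (h i + (p - 1) * x) % p := by
    intro i
    exact ((Nat.mod_modEq x p).mul_left (p - 1)).add_left (h i)
  simp only [e]
  exact ⟨fun h => h.2, fun h => ⟨Nat.mod_lt _ hp, h⟩⟩

/-- for `x ≤ h i` -/
theorem mod_sub {p b x t : ℕ} (hp : 0 < p) (h : b = t + x) : (b + (p - 1) * x) % p = t % p := by
  obtain ⟨q, rfl⟩ : ∃ q, p = q + 1 := ⟨p - 1, by omega⟩
  rw [Nat.add_sub_cancel, h]
  have : t + x + q * x = t + (q + 1) * x := by ring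
  rw [this, Nat.add_mul_mod_self_left]

theorem Zh_lt {m : ℕ} (Z : Fin m → ℕ → Finset ℕ) (h : Fin m → ℕ) (p : ℕ) : ∀ c ∈ Zh Z h p, c < p := by
  intro c hc
  unfold Zh at hc
  exact mem_range.1 (mem_filter.1 hc).1

theorem Zh_card_le {m r : ℕ} {Z : Fin m → ℕ → Finset ℕ} (hZ : ∀ i, SysZ r (Z i)) (h : Fin m → ℕ) {p : ℕ} (hp : p.Prime) :
    (Zh Z h p).card ≤ ∑ i, (Z i p).card := by
  classical
  have h1 : Zh Z h p ⊆ univ.biUnion (fun i : Fin m => (range p).filter (fun c => (h i + (p - 1) * c) % p ∈ Z i p)) := by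
    intro c hc
    unfold Zh at hc
    rw [mem_filter] at hc
    obtain ⟨i, hi⟩ := hc.2
    rw [mem_biUnion]
    exact ⟨i, mem_univ _, mem_filter.2 ⟨hc.1, hi⟩⟩
  refine (card_le_card h1).trans (card_biUnion_le.trans ?_)
  apply sum_le_sum
  intro i _
  rw [rot_card hp.pos _ ((hZ i).lt p hp)]

theorem Zh_card_le' {m r : ℕ} {Z : Fin m → ℕ → Finset ℕ} (hZ : ∀ i, SysZ r (Z i)) (h : Fin m → ℕ) {p : ℕ} (hp : p.Prime) :
    (Zh Z h p).card ≤ m * r := by
  refine (Zh_card_le hZ h hp).trans ?_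
  calc ∑ i, (Z i p).card ≤ ∑ _i : Fin m, r := sum_le_sum fun i _ => (hZ i).card p hp
    _ = m * r := by simp

/-- the number of the elements of a window outside the shifted classes -/
theorem cnt_window {r : ℕ} {Z : ℕ → Finset ℕ} (hZ : SysZ r Z) (z x A N : ℕ) :
    (∑ b ∈ Ioc A (A + N), ∏ p ∈ Pr 0 z, (if (b + (p - 1) * x) % p ∈ Z p then (0 : ℝ) else 1)) ≤
      N * VV Z 0 z + ∏ p ∈ Pr 0 z, (p : ℝ) := by
  classical
  have h := avg1 (Pr 0 z) (fun p => p) (fun p hp => (Pr_prime hp).pos) (by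
    intro p hp q hq hpq
    exact (Nat.coprime_primes (Pr_prime (mem_coe.1 hp)) (Pr_prime (mem_coe.1 hq))).2 hpq)
    (fun p b => if (b + (p - 1) * x) % p ∈ Z p then (0 : ℝ) else 1) (by
      intro p _ n
      split_ifs <;> norm_num) (by
      intro p _ n
      have : (n + p + (p - 1) * x) % p = (n + (p - 1) * x) % p := by
        rw [show n + p + (p - 1) * x = n + (p - 1) * x + p by ring, Nat.add_mod_right]
      rw [this]) (A + 1) N
  have hI : Ico (A + 1) (A + 1 + N) = Ioc A (A + N) := by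
    ext b
    rw [mem_Ico, mem_Ioc]
    omega
  rw [hI] at h
  have hm : ∏ p ∈ Pr 0 z, ((∑ n ∈ range p, (if (n + (p - 1) * x) % p ∈ Z p then (0 : ℝ) else 1)) / (p : ℝ)) = VV Z 0 z := by
    unfold VV
    apply prod_congr rfl
    intro p hp
    have hpp := Pr_prime hp
    have hp0 : (0 : ℝ) < p := by exact_mod_cast hpp.pos
    have e : (∑ n ∈ range p, (if (n + (p - 1) * x) % p ∈ Z p then (0 : ℝ) else 1)) = p - ((Z p).card : ℝ) := by
      rw [← shift_card (b := (p - 1) * x) hpp.pos (Z p) (hZ.lt p hpp)]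
      have h1 : (∑ n ∈ range p, (if (n + (p - 1) * x) % p ∈ Z p then (0 : ℝ) else 1)) =
          ∑ n ∈ range p, ((1 : ℝ) - (if (n + (p - 1) * x) % p ∈ Z p then (1 : ℝ) else 0)) := by
        apply sum_congr rfl
        intro n _
        split_ifs <;> norm_num
      rw [h1, sum_sub_distrib, sum_const, card_range, nsmul_eq_mul, mul_one, sum_boole]
    rw [e]
    field_simp
  rw [hm] at h
  have := (abs_le.1 h).2
  linarith

/-- the sieve product as a mean value -/
theorem mean_VV (Z : ℕ → Finset ℕ) (hZ : ∀ p : ℕ, p.Prime → ∀ c ∈ Z p, c < p) (z : ℕ) :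
    (∏ p ∈ Pr 0 z, (p : ℝ)) * VV Z 0 z =
      ∑ x ∈ range (∏ p ∈ Pr 0 z, p), ∏ p ∈ Pr 0 z, (if x % p ∈ Z p then (0 : ℝ) else 1) := by
  classical
  rw [sum_prod (Pr 0 z) (fun p => p) (fun p hp => (Pr_prime hp).pos) (by
    intro p hp q hq hpq
    exact (Nat.coprime_primes (Pr_prime (mem_coe.1 hp)) (Pr_prime (mem_coe.1 hq))).2 hpq)
    (fun p b => if b % p ∈ Z p then (0 : ℝ) else 1) (by
      intro p _ n
      rw [Nat.add_mod_right])]
  unfold VV
  rw [← prod_mul_distrib]
  apply prod_congr rfl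
  intro p hp
  have hpp := Pr_prime hp
  have hp0 : (0 : ℝ) < p := by exact_mod_cast hpp.pos
  have h1 : (∑ n ∈ range p, (if n % p ∈ Z p then (0 : ℝ) else 1)) =
      ∑ n ∈ range p, ((1 : ℝ) - (if n ∈ Z p then (1 : ℝ) else 0)) := by
    apply sum_congr rfl
    intro n hn
    rw [Nat.mod_eq_of_lt (mem_range.1 hn)]
    split_ifs <;> norm_num
  rw [h1, sum_sub_distrib, sum_const, card_range, nsmul_eq_mul, mul_one, sum_boole]
  have h2 : (range p).filter (fun n => n ∈ Z p) = Z p := by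
    ext n
    rw [mem_filter, mem_range]
    exact ⟨fun h => h.2, fun h => ⟨hZ p hpp n h, h⟩⟩
  rw [h2]
  field_simp

/-- **The average of the sieve product of the joint system over the shifts.** -/
theorem avg_Zh {m r : ℕ} {Z : Fin m → ℕ → Finset ℕ} (hZ : ∀ i, SysZ r (Z i)) (z N : ℕ) (A : Fin m → ℕ) :
    ∑ h ∈ Fintype.piFinset (fun i => Ioc (A i) (A i + N)), VV (Zh Z h) 0 z ≤
      ∏ i, (N * VV (Z i) 0 z + ∏ p ∈ Pr 0 z, (p : ℝ)) := by
  classical
  obtain ⟨P, hP⟩ : ∃ P : ℝ, P = ∏ p ∈ Pr 0 z, (p : ℝ) := ⟨_, rfl⟩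
  have hP0 : 0 < P := by
    rw [hP]
    exact prod_pos fun p hp => by exact_mod_cast (Pr_prime hp).pos
  have hPn : ((∏ p ∈ Pr 0 z, p : ℕ) : ℝ) = P := by
    rw [hP]
    push_cast
    rfl
  have key : P * ∑ h ∈ Fintype.piFinset (fun i => Ioc (A i) (A i + N)), VV (Zh Z h) 0 z ≤
      P * ∏ i, (N * VV (Z i) 0 z + ∏ p ∈ Pr 0 z, (p : ℝ)) := by
    have e1 : ∀ h : Fin m → ℕ, P * VV (Zh Z h) 0 z = ∑ x ∈ range (∏ p ∈ Pr 0 z, p),
        ∏ i, ∏ p ∈ Pr 0 z, (if (h i + (p - 1) * x) % p ∈ Z i p then (0 : ℝ) else 1) := by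
      intro h
      rw [hP, mean_VV _ (fun p _ => Zh_lt Z h p) z]
      apply sum_congr rfl
      intro x _
      rw [prod_comm]
      apply prod_congr rfl
      intro p hp
      have hpp := Pr_prime hp
      by_cases hx : x % p ∈ Zh Z h p
      · rw [if_pos hx]
        obtain ⟨i, hi⟩ := (mem_Zh hpp.pos).1 hx
        symm
        apply prod_eq_zero (mem_univ i)
        rw [if_pos hi]
      · rw [if_neg hx]
        symm
        apply prod_eq_one
        intro i _
        rw [if_neg]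
        intro hi
        exact hx ((mem_Zh hpp.pos).2 ⟨i, hi⟩)
    rw [mul_sum, sum_congr rfl (fun h _ => e1 h), sum_comm]
    calc ∑ x ∈ range (∏ p ∈ Pr 0 z, p), ∑ h ∈ Fintype.piFinset (fun i => Ioc (A i) (A i + N)),
          ∏ i, ∏ p ∈ Pr 0 z, (if (h i + (p - 1) * x) % p ∈ Z i p then (0 : ℝ) else 1) =
        ∑ x ∈ range (∏ p ∈ Pr 0 z, p), ∏ i, ∑ b ∈ Ioc (A i) (A i + N),
          ∏ p ∈ Pr 0 z, (if (b + (p - 1) * x) % p ∈ Z i p then (0 : ℝ) else 1) := by
          apply sum_congr rfl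
          intro x _
          rw [prod_univ_sum]
      _ ≤ ∑ x ∈ range (∏ p ∈ Pr 0 z, p), ∏ i, (N * VV (Z i) 0 z + ∏ p ∈ Pr 0 z, (p : ℝ)) := by
          apply sum_le_sum
          intro x _
          apply prod_le_prod
          · intro i _
            apply sum_nonneg
            intro b _
            apply prod_nonneg
            intro p _
            split_ifs <;> norm_num
          · intro i _
            exact cnt_window (hZ i) z x (A i) N
      _ = _ := by
          rw [sum_const, card_range, nsmul_eq_mul, hPn]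
  exact le_of_mul_le_mul_left key hP0

end Pool.Agent.Q204.CD
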