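import Pool.Agent.Q204.CD.Sim
import Pool.Agent.Y840.CT.Gen
import Pool.Agent.Y840.CT.Low

/-!
# Chen's theorem for several systems of shifts: joint translates
-/

set_option autoImplicit false

namespace Pool.Agent.Q204.CD

open Finset Filter
open Pool.Agent.Y843.HS (Pr VV Pr_mem Pr_prime VV_split)
open Pool.Agent.Y843.HG (Z0)
open Pool.Agent.Y843.CH (hr hr_lt hr_cast hr_eq_iff hr_zero_iff)
open Pool.Agent.Y840.CT (Sys rho OmH Good Vp Rough genI Z0_OmH card_Z0 OmH_card OmH_le Vp_eq)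
open Pool.Agent.Q253.Thin (SysZ VZ_nonneg VZ_le_one VZ_low)
open Pool.Agent.Q253.Cov (ap_dense)

/-- the differences of the windows avoid the differences of `U` -/
def GoodU {m : ℕ} (U : Finset ℤ) (t : Fin m → ℕ) : Prop :=
  ∀ i j : Fin m, i ≠ j → ∀ a ∈ U, ∀ b ∈ U, (t i : ℤ) - a ≠ t j - b

theorem GoodU_add {m : ℕ} {U : Finset ℤ} {t : Fin m → ℕ} (x : ℕ) (h : GoodU U t) : GoodU U (fun i => t i + x) := by
  intro i j hij a ha b hb he
  apply h i j hij a ha b hb
  push_cast at he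
  linarith

open Classical in
/-- few primes have collisions -/
theorem colU_card {m : ℕ} {Z : Fin m → ℕ → Finset ℕ} {U : Finset ℤ} {h : Fin m → ℕ} {W z H u0 : ℕ} (hW : 1 ≤ W)
    (hU : U.card ≤ u0) (hZU : ∀ i, ∀ p : ℕ, p.Prime → ∀ n : ℕ, n % p ∈ Z i p → ∃ a ∈ U, (p : ℤ) ∣ a - n)
    (hg : GoodU U h) (hh : ∀ i, ∀ a ∈ U, |(h i : ℤ) - a| ≤ W) :
    (((Pr z H).filter (fun p => Col Z h p)).card : ℝ) ≤ (m * u0) ^ 2 * Real.log (2 * W) / Real.log 2 := by
  have hWr : (1 : ℝ) ≤ W := by exact_mod_cast hW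
  have hl2 : 0 < Real.log 2 := Real.log_pos (by norm_num)
  set F : (Fin m × Fin m) × (ℤ × ℤ) → ℕ := fun w => Int.natAbs (((h w.1.1 : ℤ) - w.2.1) - ((h w.1.2 : ℤ) - w.2.2)) with hF
  set J : Finset ((Fin m × Fin m) × (ℤ × ℤ)) := (univ : Finset (Fin m)).offDiag ×ˢ (U ×ˢ U) with hJ
  have hF0 : ∀ w ∈ J, F w ≠ 0 := by
    intro w hw
    rw [hJ, mem_product, mem_offDiag, mem_product] at hw
    have h1 := hg w.1.1 w.1.2 hw.1.2.2 w.2.1 hw.2.1 w.2.2 hw.2.2
    rw [hF]
    dsimp only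
    omega
  have hFX : ∀ w ∈ J, F w ≤ 2 * W := by
    intro w hw
    rw [hJ, mem_product, mem_offDiag, mem_product] at hw
    have h1 := abs_le.1 (hh w.1.1 w.2.1 hw.2.1)
    have h2 := abs_le.1 (hh w.1.2 w.2.2 hw.2.2)
    rw [hF]
    dsimp only
    omega
  have hsub : (Pr z H).filter (fun p => Col Z h p) ⊆ J.biUnion (fun w => (F w).primeFactors) := by
    intro p hp
    rw [mem_filter] at hp
    have hpp := Pr_prime hp.1
    obtain ⟨i, j, hij, c, h1, h2⟩ := hp.2
    obtain ⟨a, ha, h3⟩ := hZU i p hpp _ h1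
    obtain ⟨b, hb, h4⟩ := hZU j p hpp _ h2
    rw [mem_biUnion]
    have hmem : (((i, j), (a, b)) : (Fin m × Fin m) × (ℤ × ℤ)) ∈ J := by
      rw [hJ, mem_product, mem_offDiag, mem_product]
      exact ⟨⟨mem_univ _, mem_univ _, hij⟩, ha, hb⟩
    refine ⟨((i, j), (a, b)), hmem, ?_⟩
    rw [Nat.mem_primeFactors]
    refine ⟨hpp, ?_, hF0 _ hmem⟩
    rw [hF]
    dsimp only
    rw [← Int.natCast_dvd]
    have h5 := dvd_sub h4 h3
    have e : b - ((h j + (p - 1) * c : ℕ) : ℤ) - (a - ((h i + (p - 1) * c : ℕ) : ℤ)) = ((h i : ℤ) - a) - ((h j : ℤ) - b) := by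
      push_cast
      ring
    rw [e] at h5
    exact h5
  have hpf : ∀ N : ℕ, 1 ≤ N → (N.primeFactors.card : ℝ) * Real.log 2 ≤ Real.log N := by
    intro N hN
    have h1 : 2 ^ N.primeFactors.card ≤ N := by
      calc 2 ^ N.primeFactors.card = ∏ _p ∈ N.primeFactors, 2 := by rw [prod_const]
        _ ≤ ∏ p ∈ N.primeFactors, p := Finset.prod_le_prod' fun p hp => (Nat.prime_of_mem_primeFactors hp).two_le
        _ ≤ N := Nat.le_of_dvd hN (Nat.prod_primeFactors_dvd N)
    have h2 : ((2 : ℝ) ^ N.primeFactors.card) ≤ N := by exact_mod_cast h1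
    have h3 := Real.log_le_log (by positivity) h2
    rwa [Real.log_pow] at h3
  rw [le_div_iff₀ hl2]
  calc (((Pr z H).filter (fun p => Col Z h p)).card : ℝ) * Real.log 2 ≤
        ((∑ w ∈ J, (F w).primeFactors.card : ℕ) : ℝ) * Real.log 2 := by
        apply mul_le_mul_of_nonneg_right _ hl2.le
        exact_mod_cast (card_le_card hsub).trans card_biUnion_le
    _ = ∑ w ∈ J, ((F w).primeFactors.card : ℝ) * Real.log 2 := by
        push_cast
        rw [sum_mul]
    _ ≤ ∑ _w ∈ J, Real.log (2 * W) := by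
        apply sum_le_sum
        intro w hw
        have h0 := hF0 w hw
        have h1 := hpf (F w) (by omega)
        have h2 : (F w : ℝ) ≤ 2 * W := by exact_mod_cast hFX w hw
        have h3 : (0 : ℝ) < F w := by exact_mod_cast Nat.pos_of_ne_zero h0
        have h4 := Real.log_le_log h3 h2
        linarith
    _ = (J.card : ℝ) * Real.log (2 * W) := by rw [sum_const, nsmul_eq_mul]
    _ ≤ ((m : ℝ) * u0) ^ 2 * Real.log (2 * W) := by
        apply mul_le_mul_of_nonneg_right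
        · have h1 : J.card ≤ (m * u0) ^ 2 := by
            rw [hJ, card_product, offDiag_card, card_product, card_univ, Fintype.card_fin]
            calc (m * m - m) * (U.card * U.card) ≤ (m * m) * (u0 * u0) :=
                  Nat.mul_le_mul (Nat.sub_le _ _) (Nat.mul_le_mul hU hU)
              _ = (m * u0) ^ 2 := by ring
          exact_mod_cast h1
        · exact Real.log_nonneg (by linarith)

open Classical in
/-- few tuples are bad -/
theorem badU_card {m : ℕ} {U : Finset ℤ} {u0 : ℕ} (hU : U.card ≤ u0) (T : Fin m → Finset ℕ)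
    (hT : ∀ i, 2 * (m * u0) ^ 2 ≤ (T i).card) (hm : 1 ≤ m * u0) :
    2 * ((Fintype.piFinset T).filter (fun t => ¬ GoodU U t)).card ≤ (Fintype.piFinset T).card := by
  set J : Finset ((Fin m × Fin m) × (ℤ × ℤ)) := (univ : Finset (Fin m)).offDiag ×ˢ (U ×ˢ U) with hJ
  have hJc : J.card ≤ (m * u0) ^ 2 := by
    rw [hJ, card_product, offDiag_card, card_product, card_univ, Fintype.card_fin]
    calc (m * m - m) * (U.card * U.card) ≤ (m * m) * (u0 * u0) :=
          Nat.mul_le_mul (Nat.sub_le _ _) (Nat.mul_le_mul hU hU)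
      _ = (m * u0) ^ 2 := by ring
  have hsub : (Fintype.piFinset T).filter (fun t => ¬ GoodU U t) ⊆ J.biUnion
      (fun w => (Fintype.piFinset T).filter (fun t => (t w.1.1 : ℤ) - w.2.1 = t w.1.2 - w.2.2)) := by
    intro t ht
    rw [mem_filter] at ht
    have h1 := ht.2
    unfold GoodU at h1
    push Not at h1
    obtain ⟨i, j, hij, a, ha, b, hb, he⟩ := h1
    rw [mem_biUnion]
    refine ⟨((i, j), (a, b)), ?_, ?_⟩
    · rw [hJ, mem_product, mem_offDiag, mem_product]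
      exact ⟨⟨mem_univ _, mem_univ _, hij⟩, ha, hb⟩
    · rw [mem_filter]
      exact ⟨ht.1, he⟩
  have hone : ∀ w ∈ J, 2 * (m * u0) ^ 2 *
      ((Fintype.piFinset T).filter (fun t => (t w.1.1 : ℤ) - w.2.1 = t w.1.2 - w.2.2)).card ≤ (Fintype.piFinset T).card := by
    rintro ⟨⟨i, j⟩, ⟨a, b⟩⟩ hw
    rw [hJ, mem_product, mem_offDiag, mem_product] at hw
    have hne : i ≠ j := hw.1.2.2
    dsimp only
    set E := (Fintype.piFinset T).filter (fun t => (t i : ℤ) - a = t j - b) with hE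
    calc 2 * (m * u0) ^ 2 * E.card ≤ (T i).card * E.card := Nat.mul_le_mul_right _ (hT i)
      _ = (T i ×ˢ E).card := (card_product _ _).symm
      _ ≤ (Fintype.piFinset T).card := by
        apply card_le_card_of_injOn (fun st => Function.update st.2 i st.1)
        · rintro ⟨s, t⟩ hst
          rw [mem_coe, mem_product, hE, mem_filter, Fintype.mem_piFinset] at hst
          rw [mem_coe, Fintype.mem_piFinset]
          intro l
          dsimp only
          by_cases hl : l = i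
          · subst hl
            rw [Function.update_self]
            exact hst.1
          · rw [Function.update_of_ne hl]
            exact hst.2.1 l
        · rintro ⟨s, t⟩ hst ⟨s', t'⟩ hst' he
          rw [mem_coe, mem_product, hE, mem_filter, Fintype.mem_piFinset] at hst hst'
          dsimp only at he hst hst'
          have h1 : s = s' := by
            have := congrFun he i
            rwa [Function.update_self, Function.update_self] at this
          have h2 : ∀ l, l ≠ i → t l = t' l := by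
            intro l hl
            have := congrFun he l
            rwa [Function.update_of_ne hl, Function.update_of_ne hl] at this
          have h3 : t i = t' i := by
            have e1 := hst.2.2
            have e2 := hst'.2.2
            rw [← h2 j (Ne.symm hne)] at e2
            have e3 : (t i : ℤ) = t' i := by linarith
            exact_mod_cast e3
          have h4 : t = t' := by
            funext l
            by_cases hl : l = i
            · rw [hl]
              exact h3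
            · exact h2 l hl
          rw [h1, h4]
  have h1 : 2 * (m * u0) ^ 2 * ((Fintype.piFinset T).filter (fun t => ¬ GoodU U t)).card ≤ (m * u0) ^ 2 * (Fintype.piFinset T).card := by
    calc 2 * (m * u0) ^ 2 * ((Fintype.piFinset T).filter (fun t => ¬ GoodU U t)).card ≤
          2 * (m * u0) ^ 2 * ∑ w ∈ J, ((Fintype.piFinset T).filter (fun t => (t w.1.1 : ℤ) - w.2.1 = t w.1.2 - w.2.2)).card :=
          Nat.mul_le_mul_left _ ((card_le_card hsub).trans card_biUnion_le)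
      _ = ∑ w ∈ J, 2 * (m * u0) ^ 2 * ((Fintype.piFinset T).filter (fun t => (t w.1.1 : ℤ) - w.2.1 = t w.1.2 - w.2.2)).card := by
          rw [mul_sum]
      _ ≤ ∑ _w ∈ J, (Fintype.piFinset T).card := sum_le_sum hone
      _ = J.card * (Fintype.piFinset T).card := by rw [sum_const, smul_eq_mul]
      _ ≤ (m * u0) ^ 2 * (Fintype.piFinset T).card := Nat.mul_le_mul_right _ hJc
  have h2 : (m * u0) ^ 2 * (2 * ((Fintype.piFinset T).filter (fun t => ¬ GoodU U t)).card) ≤ (m * u0) ^ 2 * (Fintype.piFinset T).card := by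
    calc (m * u0) ^ 2 * (2 * ((Fintype.piFinset T).filter (fun t => ¬ GoodU U t)).card) =
        2 * (m * u0) ^ 2 * ((Fintype.piFinset T).filter (fun t => ¬ GoodU U t)).card := by ring
      _ ≤ _ := h1
  exact Nat.le_of_mul_le_mul_left h2 (by positivity)

/-- the classes modulo `p` where one of the `h - (e i + c)`, `h ∈ insert 0 (H i)`, is divisible by `p` -/
def Zc {m : ℕ} (H : Fin m → Finset ℤ) (e : Fin m → ℤ) (p : ℕ) : Finset ℕ :=
  (range p).filter (fun c => ∃ i, ∃ a ∈ insert 0 (H i), (p : ℤ) ∣ a - (e i + c))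

theorem mem_Z0H {H : Finset ℤ} {p n : ℕ} (hp : 0 < p) : n % p ∈ Z0 (OmH H) p ↔ ∃ a ∈ insert 0 H, (p : ℤ) ∣ a - n := by
  classical
  rw [Z0_OmH, mem_insert, mem_image]
  constructor
  · rintro (h | ⟨a, ha, h⟩)
    · refine ⟨0, mem_insert_self _ _, ?_⟩
      rw [zero_sub, dvd_neg]
      exact_mod_cast Nat.dvd_of_mod_eq_zero h
    · refine ⟨a, mem_insert_of_mem ha, ?_⟩
      have h7 : hr a p = hr (n : ℤ) p := by
        rw [Pool.Agent.Y843.CH.hr_nat n hp]
        exact h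
      rw [hr_eq_iff _ _ hp] at h7
      exact Int.modEq_iff_dvd.1 h7.symm
  · rintro ⟨a, ha, h⟩
    rw [mem_insert] at ha
    rcases ha with rfl | ha
    · left
      rw [zero_sub, dvd_neg] at h
      exact Nat.mod_eq_zero_of_dvd (by exact_mod_cast h)
    · right
      refine ⟨a, ha, ?_⟩
      have h7 : hr a p = hr (n : ℤ) p := by
        rw [hr_eq_iff _ _ hp]
        exact (Int.modEq_iff_dvd.2 h).symm
      rw [h7, Pool.Agent.Y843.CH.hr_nat n hp]

theorem Z0_sys {r X : ℕ} {H : Finset ℤ} (hS : Sys r X H) : SysZ (r + 1) (Z0 (OmH H)) where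
  card p hp := by
    have h2 : (OmH H p).card ≤ H.card := OmH_le H p
    have h3 := OmH_card H hp.pos
    have h4 := hS.card
    rw [card_Z0 H hp.pos]
    omega
  loc p hp := by
    rw [card_Z0 H hp.pos]
    exact hS.loc p hp
  lt p hp x hx := by
    classical
    rw [Z0_OmH, mem_insert, mem_image] at hx
    rcases hx with rfl | ⟨y, _, rfl⟩
    · exact hp.pos
    · exact hr_lt y hp.pos

theorem Zc_lt {m : ℕ} (H : Fin m → Finset ℤ) (e : Fin m → ℤ) (p : ℕ) : ∀ c ∈ Zc H e p, c < p := by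
  intro c hc
  unfold Zc at hc
  exact mem_range.1 (mem_filter.1 hc).1

theorem mem_Zc {m : ℕ} {H : Fin m → Finset ℤ} {e : Fin m → ℤ} {p x : ℕ} (hp : 0 < p) :
    x % p ∈ Zc H e p ↔ ∃ i, ∃ a ∈ insert 0 (H i), (p : ℤ) ∣ a - (e i + x) := by
  unfold Zc
  rw [mem_filter, mem_range]
  have h : ∀ i, ∀ a : ℤ, (p : ℤ) ∣ a - (e i + (x % p : ℕ)) ↔ (p : ℤ) ∣ a - (e i + x) := by
    intro i a
    have h1 : a - (e i + (x % p : ℕ)) = a - (e i + x) + p * ((x / p : ℕ) : ℤ) := by
      have h2 : ((x % p : ℕ) : ℤ) + p * ((x / p : ℕ) : ℤ) = x := by exact_mod_cast Nat.mod_add_div x p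
      linarith
    rw [h1]
    constructor
    · intro h3
      exact (dvd_add_left (dvd_mul_right _ _)).1 h3
    · intro h3
      exact dvd_add h3 (dvd_mul_right _ _)
  simp only [h]
  exact ⟨fun h => h.2, fun h => ⟨Nat.mod_lt _ hp, h⟩⟩

/-- the reflected system -/
theorem Zh_Zc {m : ℕ} {H : Fin m → Finset ℤ} {h : Fin m → ℕ} {e : Fin m → ℤ} {b : ℕ} (he : ∀ i, (h i : ℤ) = e i + b) {p : ℕ}
    (hp : p.Prime) : (Zh (fun i : Fin m => Z0 (OmH (H i))) h p).card = (Zc H e p).card := by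
  classical
  have hp0 := hp.pos
  rw [← rot_card (b := b) hp0 (Zh (fun i : Fin m => Z0 (OmH (H i))) h p) (Zh_lt _ _ _)]
  congr 1
  ext c
  unfold Zc
  rw [mem_filter, mem_filter, mem_Zh hp0]
  have key : ∀ i, (h i + (p - 1) * (b + (p - 1) * c)) % p ∈ Z0 (OmH (H i)) p ↔ ∃ a ∈ insert 0 (H i), (p : ℤ) ∣ a - (e i + c) := by
    intro i
    rw [mem_Z0H hp0]
    have h1 : ∀ a : ℤ, (p : ℤ) ∣ a - ((h i + (p - 1) * (b + (p - 1) * c) : ℕ) : ℤ) ↔ (p : ℤ) ∣ a - (e i + c) := by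
      intro a
      obtain ⟨q, hq⟩ : ∃ q, p = q + 2 := ⟨p - 2, by have := hp.two_le; omega⟩
      have e1 : a - ((h i + (p - 1) * (b + (p - 1) * c) : ℕ) : ℤ) = a - (e i + c) + p * (-(b + q * c : ℤ)) := by
        rw [hq]
        have e0 : q + 2 - 1 = q + 1 := by omega
        rw [e0]
        push_cast
        rw [he i]
        ring
      rw [e1]
      constructor
      · intro h3
        exact (dvd_add_left (dvd_mul_right _ _)).1 h3
      · intro h3
        exact dvd_add h3 (dvd_mul_right _ _)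
    simp only [h1]
  simp only [key]

/-- **Chen's theorem for `m` systems of shifts: joint translates.** -/
theorem chen_joint (r : ℕ) : ∃ t : ℕ, 1 ≤ t ∧ ∀ (m : ℕ) (θ ε : ℝ), 1 ≤ m → 0 < θ → 0 < ε →
    ∃ c : ℝ, 0 < c ∧ ∀ (k : ℕ) (η : ℝ), 0 < η → ∃ D X₀ : ℕ, ∀ X : ℕ, X₀ ≤ X →
      ∀ (H : Fin m → Finset ℤ) (h0 : Fin m → ℤ) (A B : Fin m → ℕ),
      (∀ i, Sys r X (H i) ∧ h0 i ∈ H i ∧ B i ≤ X ∧ θ * X ≤ (B i : ℝ) - A i) →
      ∀ S : Fin m → Finset ℕ, (∀ i, S i ⊆ Good t X (A i) (B i) (H i) (h0 i)) →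
      (∀ i, ε * ((Good t X (A i) (B i) (H i) (h0 i)).card : ℝ) ≤ (S i).card) →
      ∃ e : Fin m → ℤ, ∃ J : Finset ℕ, (∀ y, y ∈ J ↔ (1 ≤ y ∧ y ≤ X ∧ ∀ i, ∃ n ∈ S i, (n : ℤ) = e i + y)) ∧
        c * (X * VV (Zc H e) 0 X) ≤ (J.card : ℝ) ∧
        ∀ S' ⊆ J, η * (J.card : ℝ) ≤ S'.card → ∃ a d : ℕ, 1 ≤ d ∧ (d : ℝ) ≤ Real.log X ^ D ∧ ∀ l < k, a + l * d ∈ S' := by
  classical
  obtain ⟨t, ht, c₀, hc₀, hlow, -⟩ := genI r
  refine ⟨t, ht, ?_⟩
  intro m θ ε hm hθ hε
  have ht0 : (0 : ℝ) < 1 / t := by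
    have : (0 : ℝ) < t := by exact_mod_cast ht
    positivity
  have ht1 : (1 : ℝ) / t ≤ 1 := by
    rw [div_le_one (by exact_mod_cast ht)]
    exact_mod_cast ht
  have hl2 : 0 < Real.log 2 := Real.log_pos (by norm_num)
  obtain ⟨cV, hcV, hVlow⟩ := VZ_low (r + 1) (by omega)
  obtain ⟨u0, hu0⟩ : ∃ u0 : ℕ, u0 = m * (r + 1) := ⟨_, rfl⟩
  have hu01 : 1 ≤ m * u0 := by
    rw [hu0]
    exact Nat.mul_pos hm (Nat.mul_pos hm (by omega))
  obtain ⟨X₁, H1⟩ := hlow θ hθ
  obtain ⟨c', hc', X₂, Hsel⟩ := select m (r + 1) (by omega) (ε * (c₀ * θ)) (8 * (m * u0) ^ 2 / Real.log 2) (by positivity)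
  refine ⟨c', hc', ?_⟩
  intro k η hη
  obtain ⟨D, X₃, Hap⟩ := ap_dense k (m * (r + 1)) (1 / t) (η * c') ht0 ht1 (by positivity)
  have ev1 : ∀ᶠ X : ℕ in atTop, 2 * ((m : ℝ) * u0) ^ 2 * Real.log X ^ (r + 1) ≤ ε * (c₀ * θ) * cV * X := by
    have h1 : (fun x : ℝ => Real.log x ^ (r + 1)) =o[atTop] fun x => x ^ (1 : ℝ) :=
      (isLittleO_log_rpow_rpow_atTop ((r + 1 : ℕ) : ℝ) (by norm_num : (0 : ℝ) < 1)).congr_left
        (fun x => by rw [Real.rpow_natCast])
    have h2 := h1.def (show (0 : ℝ) < ε * (c₀ * θ) * cV / (2 * ((m : ℝ) * u0) ^ 2 + 1) by positivity)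
    have h3 := (tendsto_natCast_atTop_atTop (R := ℝ)).eventually h2
    filter_upwards [h3, eventually_ge_atTop 1] with X hX h1
    have hX1 : (1 : ℝ) ≤ X := by exact_mod_cast h1
    have hl := pow_nonneg (Real.log_nonneg hX1) (r + 1)
    rw [Real.norm_of_nonneg hl, Real.norm_of_nonneg (by positivity), Real.rpow_one] at hX
    have h4 : (2 * ((m : ℝ) * u0) ^ 2 + 1) * Real.log X ^ (r + 1) ≤ ε * (c₀ * θ) * cV * X := by
      calc (2 * ((m : ℝ) * u0) ^ 2 + 1) * Real.log X ^ (r + 1) ≤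
            (2 * ((m : ℝ) * u0) ^ 2 + 1) * (ε * (c₀ * θ) * cV / (2 * ((m : ℝ) * u0) ^ 2 + 1) * X) :=
            mul_le_mul_of_nonneg_left hX (by positivity)
        _ = _ := by field_simp
    linarith
  have ev3 : ∀ᶠ X : ℕ in atTop, ((m * (r + 1) : ℕ) : ℝ) + 1 ≤ (X : ℝ) ^ (1 / (t : ℝ)) :=
    ((tendsto_rpow_atTop ht0).comp tendsto_natCast_atTop_atTop).eventually_ge_atTop _
  obtain ⟨X₄, hX₄⟩ := eventually_atTop.1 (ev1.and ev3)
  refine ⟨D, max (max (max X₁ X₂) (max X₃ X₄)) 6, ?_⟩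
  intro X hX H h0 A B hHA S hS hSc
  have gX1 : X₁ ≤ X := ((le_max_left _ _).trans ((le_max_left _ _).trans (le_max_left _ _))).trans hX
  have gX2 : X₂ ≤ X := ((le_max_right _ _).trans ((le_max_left _ _).trans (le_max_left _ _))).trans hX
  have gX3 : X₃ ≤ X := ((le_max_left _ _).trans ((le_max_right _ _).trans (le_max_left _ _))).trans hX
  obtain ⟨g1, g3⟩ := hX₄ X (((le_max_right _ _).trans ((le_max_right _ _).trans (le_max_left _ _))).trans hX)
  have hX6 : 6 ≤ X := (le_max_right _ _).trans hX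
  have hXr : (6 : ℝ) ≤ X := by exact_mod_cast hX6
  have hX0 : (0 : ℝ) < X := by linarith
  have hlX : 0 < Real.log X := Real.log_pos (by linarith)
  -- the sets `S i`
  have hSG : ∀ i, ∀ n ∈ S i, n ∈ Ioc 0 X ∧ ∀ p : ℕ, p.Prime → (p : ℝ) ≤ (X : ℝ) ^ (1 / (t : ℝ)) → n % p ∉ Z0 (OmH (H i)) p := by
    intro i n hn
    have h4 := hS i hn
    unfold Good at h4
    rw [mem_filter, mem_Ioc] at h4
    obtain ⟨⟨n0, n0'⟩, n1, n2, -, n3⟩ := h4
    obtain ⟨-, -, hB, -⟩ := hHA i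
    refine ⟨mem_Ioc.2 ⟨by omega, by omega⟩, ?_⟩
    intro p hp hpX hcon
    rw [mem_Z0H hp.pos] at hcon
    obtain ⟨a, ha, hd⟩ := hcon
    rw [mem_insert] at ha
    rcases ha with rfl | ha
    · rw [zero_sub, dvd_neg] at hd
      have h5 : p ∣ n := by exact_mod_cast hd
      have h6 := (Nat.prime_dvd_prime_iff_eq hp n1).1 h5
      rw [h6] at hpX
      linarith
    · have h8 := (n3 a ha).2.2 p hp hd
      linarith
  have hSlow : ∀ i, ε * (c₀ * θ) * (X * VV (Z0 (OmH (H i))) 0 X) ≤ ((S i).card : ℝ) := by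
    intro i
    obtain ⟨hsys, hh0, hB, hAB⟩ := hHA i
    have g2 := H1 X gX1 (H i) hsys (h0 i) hh0 (A i) (B i) hB hAB
    rw [Vp_eq] at g2
    refine le_trans ?_ (hSc i)
    have hV := VZ_nonneg (Z0_sys hsys) 0 X
    calc ε * (c₀ * θ) * (X * VV (Z0 (OmH (H i))) 0 X) = ε * (c₀ * (θ * X) * VV (Z0 (OmH (H i))) 0 X) := by ring
      _ ≤ ε * (c₀ * ((B i : ℝ) - A i) * VV (Z0 (OmH (H i))) 0 X) := by gcongr
      _ ≤ _ := mul_le_mul_of_nonneg_left g2 hε.le
  have hbig : ∀ i, 2 * (m * u0) ^ 2 ≤ (S i).card := by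
    intro i
    have h4 := hVlow X (by omega) (Z0 (OmH (H i))) (Z0_sys (hHA i).1)
    have h5 : 2 * ((m : ℝ) * u0) ^ 2 ≤ ((S i).card : ℝ) := by
      refine le_trans ?_ (hSlow i)
      calc 2 * ((m : ℝ) * u0) ^ 2 ≤ ε * (c₀ * θ) * cV * X / Real.log X ^ (r + 1) := by
            rw [le_div_iff₀ (by positivity)]
            exact g1
        _ = ε * (c₀ * θ) * (X * (cV / Real.log X ^ (r + 1))) := by ring
        _ ≤ _ := by gcongr
    exact_mod_cast h5
  -- the shifts
  obtain ⟨U, hU⟩ : ∃ U : Finset ℤ, U = univ.biUnion (fun i => insert 0 (H i)) := ⟨_, rfl⟩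
  have hUc : U.card ≤ u0 := by
    rw [hU, hu0]
    refine card_biUnion_le.trans ?_
    calc ∑ i, (insert 0 (H i)).card ≤ ∑ _i : Fin m, (r + 1) := by
          apply sum_le_sum
          intro i _
          have := (hHA i).1.card
          have h2 := card_insert_le (0 : ℤ) (H i)
          omega
      _ = m * (r + 1) := by simp
  have hUX : ∀ a ∈ U, |a| ≤ X := by
    intro a ha
    rw [hU, mem_biUnion] at ha
    obtain ⟨i, _, ha⟩ := ha
    rw [mem_insert] at ha
    rcases ha with rfl | ha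
    · rw [abs_zero]
      positivity
    · exact ((hHA i).1.size a ha).2
  obtain ⟨hv, I, hI, hIt, hIne, hIc⟩ := Hsel X gX2 (fun i => Z0 (OmH (H i))) (fun i => Z0_sys (hHA i).1) (fun _ => 0) S
    (fun i n hn => by rw [Nat.zero_add]; exact (hSG i n hn).1) hSlow (GoodU U) (fun t x ht => GoodU_add x ht)
      (badU_card hUc S hbig hu01) (by
      intro hv hhv hg z hz
      rw [Fintype.mem_piFinset] at hhv
      refine (colU_card (W := 3 * X) (by omega) hUc (by
        intro i p hp n hn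
        rw [mem_Z0H hp.pos] at hn
        obtain ⟨a, ha, hd⟩ := hn
        refine ⟨a, ?_, hd⟩
        rw [hU, mem_biUnion]
        exact ⟨i, mem_univ _, ha⟩) hg (by
        intro i a ha
        have h1 := abs_le.1 (hUX a ha)
        have h2 := mem_Ioc.1 (hhv i)
        rw [abs_le]
        push_cast
        constructor <;> omega)).trans ?_
      have h1 : Real.log (2 * ((3 * X : ℕ) : ℝ)) ≤ 2 * Real.log X := by
        have h2 : 2 * ((3 * X : ℕ) : ℝ) ≤ (X : ℝ) ^ 2 := by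
          push_cast
          nlinarith
        have h3 := Real.log_le_log (by positivity) h2
        rwa [Real.log_pow, Nat.cast_ofNat] at h3
      calc ((m : ℝ) * u0) ^ 2 * Real.log (2 * ((3 * X : ℕ) : ℝ)) / Real.log 2 ≤ ((m : ℝ) * u0) ^ 2 * (2 * (4 * z)) / Real.log 2 := by
            gcongr
            linarith
        _ = _ := by ring)
  -- the offsets
  obtain ⟨e, he⟩ : ∃ e : Fin m → ℤ, e = fun i => (hv i : ℤ) - (X + 1 : ℕ) := ⟨_, rfl⟩
  have hev : ∀ i, (hv i : ℤ) = e i + (X + 1 : ℕ) := by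
    intro i
    rw [he]
    ring
  obtain ⟨J, hJ⟩ : ∃ J : Finset ℕ, J = (Ioc 0 X).filter (fun y : ℕ => ∀ i, ∃ n ∈ S i, (n : ℤ) = e i + y) := ⟨_, rfl⟩
  have hJm : ∀ y, y ∈ J ↔ (1 ≤ y ∧ y ≤ X ∧ ∀ i, ∃ n ∈ S i, (n : ℤ) = e i + y) := by
    intro y
    rw [hJ, mem_filter, mem_Ioc]
    constructor
    · rintro ⟨⟨h1, h2⟩, h3⟩
      exact ⟨h1, h2, h3⟩
    · rintro ⟨h1, h2, h3⟩
      exact ⟨⟨h1, h2⟩, h3⟩
  have hIJ : I.card ≤ J.card := by
    apply card_le_card_of_injOn (fun x => X + 1 - x)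
    · intro x hx
      have hx' : x ∈ I := hx
      have h1 := mem_Ioc.1 (hI hx')
      rw [mem_coe, hJm]
      refine ⟨by dsimp only; omega, by dsimp only; omega, ?_⟩
      intro i
      obtain ⟨t, ht, hht⟩ := hIt x hx' i
      have h2 := hev i
      refine ⟨t, ht, ?_⟩
      have h3 : ((X + 1 - x : ℕ) : ℤ) = X + 1 - x := by
        rw [Nat.cast_sub (by omega)]
        push_cast
        ring
      dsimp only
      rw [h3]
      rw [hht] at h2
      push_cast at h2
      linarith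
    · intro x hx y hy hxy
      have h1 := mem_Ioc.1 (hI hx)
      have h2 := mem_Ioc.1 (hI hy)
      dsimp only at hxy
      omega
  have hVV : VV (Zh (fun i : Fin m => Z0 (OmH (H i))) hv) 0 X = VV (Zc H e) 0 X := by
    unfold VV
    apply prod_congr rfl
    intro p hp
    rw [Zh_Zc hev (Pr_prime hp)]
  have hJc : c' * (X * VV (Zc H e) 0 X) ≤ (J.card : ℝ) := by
    rw [← hVV]
    refine hIc.trans ?_
    exact_mod_cast hIJ
  refine ⟨e, J, hJm, hJc, ?_⟩
  intro S' hS' hS'c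
  have havoid : ∀ y ∈ J, ∀ p : ℕ, p.Prime → (p : ℝ) ≤ (X : ℝ) ^ (1 / (t : ℝ)) → y % p ∉ Zc H e p := by
    intro y hy p hp hpX hmem
    rw [mem_Zc hp.pos] at hmem
    obtain ⟨i, a, ha, hd⟩ := hmem
    obtain ⟨n, hn, hne⟩ := ((hJm y).1 hy).2.2 i
    apply (hSG i n hn).2 p hp hpX
    rw [mem_Z0H hp.pos]
    refine ⟨a, ha, ?_⟩
    rw [hne]
    exact hd
  have hJne : J.Nonempty := by
    rw [← card_pos]
    exact lt_of_lt_of_le hIne.card_pos hIJ
  have hcardm : ∀ p : ℕ, p.Prime → (Zc H e p).card ≤ m * (r + 1) := by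
    intro p hp
    rw [← Zh_Zc hev hp]
    exact Zh_card_le' (fun i => Z0_sys (hHA i).1) hv hp
  have hsys : SysZ (m * (r + 1)) (Zc H e) := by
    refine ⟨hcardm, fun p hp => ?_, fun p _ => Zc_lt H e p⟩
    by_cases hpX : (p : ℝ) ≤ (X : ℝ) ^ (1 / (t : ℝ))
    · obtain ⟨x, hx⟩ := hJne
      have h1 := havoid x hx p hp hpX
      have h2 : Zc H e p ⊂ range p := by
        rw [Finset.ssubset_iff_of_subset (fun c hc => mem_range.2 (Zc_lt H e p c hc))]
        exact ⟨x % p, mem_range.2 (Nat.mod_lt _ hp.pos), h1⟩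
      have h3 := card_lt_card h2
      rwa [card_range] at h3
    · push Not at hpX
      have h1 := hcardm p hp
      have h3 : ((m * (r + 1) : ℕ) : ℝ) < p := by linarith
      have h4 : m * (r + 1) < p := by exact_mod_cast h3
      omega
  exact Hap X gX3 (Zc H e) hsys 0 S' (by
    intro y hy
    rw [Nat.zero_add, mem_Ioc]
    have := (hJm y).1 (hS' hy)
    exact ⟨this.1, this.2.1⟩) (fun y hy => havoid y (hS' hy)) (by
    calc η * c' * (X * VV (Zc H e) 0 X) = η * (c' * (X * VV (Zc H e) 0 X)) := by ring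
      _ ≤ η * (J.card : ℝ) := mul_le_mul_of_nonneg_left hJc hη.le
      _ ≤ _ := hS'c)

end Pool.Agent.Q204.CD
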