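import Pool.Agent.Q204.CD.Avg

/-!
# Joint sifting systems of several windows: collisions at the large primes
-/

set_option autoImplicit false

namespace Pool.Agent.Q204.CD

open Finset
open Pool.Agent.Y843.HS (Pr VV Pr_mem Pr_prime VV_split)
open Pool.Agent.Q253.Thin (SysZ VZ_nonneg VZ_le_one VZ_low)

/-- two of the shifted systems have a common class modulo `p` -/
def Col {m : ℕ} (Z : Fin m → ℕ → Finset ℕ) (h : Fin m → ℕ) (p : ℕ) : Prop :=
  ∃ i j : Fin m, i ≠ j ∧ ∃ c : ℕ, (h i + (p - 1) * c) % p ∈ Z i p ∧ (h j + (p - 1) * c) % p ∈ Z j p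

theorem Zh_card_eq {m r : ℕ} {Z : Fin m → ℕ → Finset ℕ} (hZ : ∀ i, SysZ r (Z i)) {h : Fin m → ℕ} {p : ℕ} (hp : p.Prime)
    (hcol : ¬ Col Z h p) : (Zh Z h p).card = ∑ i, (Z i p).card := by
  classical
  have h1 : Zh Z h p = univ.biUnion (fun i : Fin m => (range p).filter (fun c => (h i + (p - 1) * c) % p ∈ Z i p)) := by
    ext c
    unfold Zh
    rw [mem_filter, mem_biUnion]
    constructor
    · rintro ⟨h1, i, hi⟩
      exact ⟨i, mem_univ _, mem_filter.2 ⟨h1, hi⟩⟩
    · rintro ⟨i, _, hi⟩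
      rw [mem_filter] at hi
      exact ⟨hi.1, i, hi.2⟩
  rw [h1, card_biUnion]
  · apply sum_congr rfl
    intro i _
    rw [rot_card hp.pos _ ((hZ i).lt p hp)]
  · intro i _ j _ hij
    show Disjoint _ _
    rw [disjoint_left]
    intro c hc hd
    rw [mem_filter] at hc hd
    exact hcol ⟨i, j, hij, c, hc.2, hd.2⟩

theorem one_sub_sum_le {ι : Type*} (s : Finset ι) (x : ι → ℝ) (h0 : ∀ i ∈ s, 0 ≤ x i) (h1 : ∀ i ∈ s, x i ≤ 1) :
    1 - ∑ i ∈ s, x i ≤ ∏ i ∈ s, (1 - x i) := by
  classical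
  induction s using Finset.induction_on with
  | empty => simp
  | insert a s ha ih =>
    rw [sum_insert ha, prod_insert ha]
    have ih' := ih (fun i hi => h0 i (mem_insert_of_mem hi)) (fun i hi => h1 i (mem_insert_of_mem hi))
    have a0 := h0 a (mem_insert_self _ _)
    have a1 := h1 a (mem_insert_self _ _)
    have hs : 0 ≤ ∑ i ∈ s, x i := sum_nonneg fun i hi => h0 i (mem_insert_of_mem hi)
    nlinarith

theorem exp_neg_two_le {t : ℝ} (h0 : 0 ≤ t) (h1 : t ≤ 1 / 2) : Real.exp (-(2 * t)) ≤ 1 - t := by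
  rw [Real.exp_neg]
  have h2 : 1 + 2 * t ≤ Real.exp (2 * t) := by
    have := Real.add_one_le_exp (2 * t)
    linarith
  have h3 : 0 < 1 + 2 * t := by linarith
  calc (Real.exp (2 * t))⁻¹ ≤ (1 + 2 * t)⁻¹ := inv_anti₀ h3 h2
    _ ≤ 1 - t := by
      rw [inv_le_iff_one_le_mul₀ h3]
      nlinarith

open Classical in
/-- **The sieve product over the large primes**, few of which have collisions. -/
theorem large_primes {m r : ℕ} {Z : Fin m → ℕ → Finset ℕ} (hZ : ∀ i, SysZ r (Z i)) (h : Fin m → ℕ) {z H : ℕ} (hz : 1 ≤ z)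
    (hzr : 2 * r ≤ z) (B : ℝ) (hB : (((Pr z H).filter (fun p => Col Z h p)).card : ℝ) ≤ B * z) :
    VV (Zh Z h) z H ≤ Real.exp (2 * r * m * B) * ∏ i, VV (Z i) z H := by
  have hz0 : (0 : ℝ) < z := by exact_mod_cast hz
  obtain ⟨β, hβ⟩ : ∃ β : ℝ, β = Real.exp (2 * (r / z) * m) := ⟨_, rfl⟩
  have hβ1 : 1 ≤ β := by
    rw [hβ]
    apply Real.one_le_exp
    positivity
  have hβ0 : 0 < β := by linarith
  have key : ∀ p ∈ Pr z H, 1 - ((Zh Z h p).card : ℝ) / p ≤
      (if Col Z h p then β else 1) * ∏ i, (1 - ((Z i p).card : ℝ) / p) := by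
    intro p hp
    have hpp := Pr_prime hp
    rw [Pr_mem] at hp
    have hp0 : (0 : ℝ) < p := by exact_mod_cast hpp.pos
    have hzp : (z : ℝ) < p := by exact_mod_cast hp.1.1
    have hx0 : ∀ i ∈ (univ : Finset (Fin m)), 0 ≤ ((Z i p).card : ℝ) / p := fun i _ => by positivity
    have hx1 : ∀ i ∈ (univ : Finset (Fin m)), ((Z i p).card : ℝ) / p ≤ 1 := by
      intro i _
      rw [div_le_one hp0]
      exact_mod_cast ((hZ i).loc p hpp).le
    split_ifs with hc
    · have h1 : 1 - ((Zh Z h p).card : ℝ) / p ≤ 1 := by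
        have : (0 : ℝ) ≤ ((Zh Z h p).card : ℝ) / p := by positivity
        linarith
      refine h1.trans ?_
      have h2 : ∀ i ∈ (univ : Finset (Fin m)), Real.exp (-(2 * (r / z))) ≤ 1 - ((Z i p).card : ℝ) / p := by
        intro i _
        have h3 : ((Z i p).card : ℝ) / p ≤ r / z := by
          rw [div_le_div_iff₀ hp0 hz0]
          have h4 : ((Z i p).card : ℝ) ≤ r := by exact_mod_cast (hZ i).card p hpp
          calc ((Z i p).card : ℝ) * z ≤ r * z := mul_le_mul_of_nonneg_right h4 hz0.le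
            _ ≤ r * p := mul_le_mul_of_nonneg_left hzp.le (by positivity)
        have h5 : (r : ℝ) / z ≤ 1 / 2 := by
          rw [div_le_div_iff₀ hz0 (by norm_num)]
          have : (2 : ℝ) * r ≤ z := by exact_mod_cast hzr
          linarith
        have h6 := exp_neg_two_le (t := (r : ℝ) / z) (by positivity) h5
        linarith
      have h3 : Real.exp (-(2 * (r / z))) ^ m ≤ ∏ i, (1 - ((Z i p).card : ℝ) / p) := by
        calc Real.exp (-(2 * (r / z))) ^ m = ∏ _i : Fin m, Real.exp (-(2 * ((r : ℝ) / z))) := by simp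
          _ ≤ _ := prod_le_prod (fun i _ => (Real.exp_pos _).le) h2
      calc (1 : ℝ) = β * Real.exp (-(2 * (r / z))) ^ m := by
            rw [hβ, ← Real.exp_nat_mul, ← Real.exp_add]
            symm
            rw [Real.exp_eq_one_iff]
            ring
        _ ≤ _ := mul_le_mul_of_nonneg_left h3 hβ0.le
    · rw [one_mul, Zh_card_eq hZ hpp hc]
      push_cast
      rw [sum_div]
      exact one_sub_sum_le _ _ hx0 hx1
  have hnn : ∀ p ∈ Pr z H, 0 ≤ 1 - ((Zh Z h p).card : ℝ) / p := by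
    intro p hp
    have hpp := Pr_prime hp
    have hp0 : (0 : ℝ) < p := by exact_mod_cast hpp.pos
    rw [sub_nonneg, div_le_one hp0]
    have : (Zh Z h p).card ≤ p := by
      calc (Zh Z h p).card ≤ (range p).card := card_le_card (by
            intro c hc
            exact mem_range.2 (Zh_lt Z h p c hc))
        _ = p := card_range p
    exact_mod_cast this
  have h1 := prod_le_prod hnn key
  have h2 : VV (Zh Z h) z H ≤ β ^ ((Pr z H).filter (fun p => Col Z h p)).card * ∏ i, VV (Z i) z H := by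
    unfold VV
    refine h1.trans (le_of_eq ?_)
    rw [prod_mul_distrib, prod_ite, prod_const, prod_const_one, mul_one]
    congr 1
    rw [prod_comm]
  refine h2.trans ?_
  apply mul_le_mul_of_nonneg_right _ (prod_nonneg fun i _ => VZ_nonneg (hZ i) _ _)
  rw [hβ, ← Real.exp_nat_mul]
  apply Real.exp_le_exp.2
  calc (((Pr z H).filter (fun p => Col Z h p)).card : ℝ) * (2 * (r / z) * m) ≤ B * z * (2 * (r / z) * m) :=
        mul_le_mul_of_nonneg_right hB (by positivity)
    _ = 2 * r * m * B := by field_simp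

end Pool.Agent.Q204.CD
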