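import Pool.Agent.Q204.CD.Lin

/-!
# Almost primes in several windows: joint translates
-/

set_option autoImplicit false

namespace Pool.Agent.Q204.CD

open Finset Filter
open Pool.Agent.Y843.HS (Pr VV Pr_mem Pr_prime VV_split)
open Pool.Agent.Q253.Thin (SysZ VZ_nonneg VZ_le_one VZ_low)
open Pool.Agent.Q253.Cov (GLn lin_count Zl_sys ap_dense)
open Pool.Agent.Q253.P3 (Zl Zl_card mem_Zl)

/-- the classes of the `c` modulo `p` such that `p` divides one of the `e i + c` -/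
def Zj {m : ℕ} (e : Fin m → ℕ) (p : ℕ) : Finset ℕ := (range p).filter (fun c => ∃ i, (e i + c) % p = 0)

theorem mem_Zj {m : ℕ} {e : Fin m → ℕ} {p x : ℕ} (hp : 0 < p) : x % p ∈ Zj e p ↔ ∃ i, p ∣ e i + x := by
  unfold Zj
  rw [mem_filter, mem_range]
  have h : ∀ i, (e i + x % p) % p = 0 ↔ p ∣ e i + x := by
    intro i
    have h1 : (e i + x % p) % p = (e i + x) % p := (Nat.mod_modEq x p).add_left (e i)
    rw [h1, Nat.dvd_iff_mod_eq_zero]
  simp only [h]
  exact ⟨fun h => h.2, fun h => ⟨Nat.mod_lt _ hp, h⟩⟩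

/-- the number of the classes -/
theorem Zj_card {m : ℕ} (e : Fin m → ℕ) {p : ℕ} (hp : 0 < p) : (Zj e p).card = (univ.image (fun i => e i % p)).card := by
  classical
  rw [← rot_card (b := 0) hp (univ.image (fun i => e i % p)) (by
    intro c hc
    rw [mem_image] at hc
    obtain ⟨i, _, rfl⟩ := hc
    exact Nat.mod_lt _ hp)]
  congr 1
  ext c
  unfold Zj
  rw [mem_filter, mem_filter, mem_range]
  constructor
  · rintro ⟨h1, i, h2⟩
    refine ⟨h1, ?_⟩
    rw [mem_image]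
    refine ⟨i, mem_univ _, ?_⟩
    have h3 : e i + c + (p - 1) * c ≡ 0 + (p - 1) * c [MOD p] := Nat.ModEq.add_right _ h2
    have h4 : e i + c + (p - 1) * c = e i + p * c := by
      obtain ⟨q, rfl⟩ : ∃ q, p = q + 1 := ⟨p - 1, by omega⟩
      rw [Nat.add_sub_cancel]
      ring
    rw [h4] at h3
    have h5 : (e i + p * c) % p = (0 + (p - 1) * c) % p := h3
    rwa [Nat.add_mul_mod_self_left] at h5
  · rintro ⟨h1, h2⟩
    refine ⟨h1, ?_⟩
    rw [mem_image] at h2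
    obtain ⟨i, _, h2⟩ := h2
    refine ⟨i, ?_⟩
    have h3 : e i + c ≡ 0 + (p - 1) * c + c [MOD p] := Nat.ModEq.add_right _ h2
    have h4 : 0 + (p - 1) * c + c = p * c := by
      obtain ⟨q, rfl⟩ : ∃ q, p = q + 1 := ⟨p - 1, by omega⟩
      rw [Nat.add_sub_cancel]
      ring
    rw [h4] at h3
    have h5 : (e i + c) % p = (p * c) % p := h3
    rwa [Nat.mul_mod_right] at h5

/-- the reflected system -/
theorem Zh_Zj {m : ℕ} {h e : Fin m → ℕ} {b : ℕ} (he : ∀ i, h i = e i + b) {p : ℕ} (hp : p.Prime) :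
    (Zh (fun _ : Fin m => Zl 1 0) h p).card = (Zj e p).card := by
  classical
  have hp0 := hp.pos
  rw [← rot_card (b := b) hp0 (Zh (fun _ : Fin m => Zl 1 0) h p) (Zh_lt _ _ _)]
  congr 1
  ext c
  unfold Zj
  rw [mem_filter, mem_filter, mem_Zh hp0]
  have key : ∀ i, (h i + (p - 1) * (b + (p - 1) * c)) % p ∈ Zl 1 0 p ↔ (e i + c) % p = 0 := by
    intro i
    rw [mem_Zl hp, one_mul, add_zero, Nat.dvd_iff_mod_eq_zero, he i]
    have h1 : (e i + b + (p - 1) * (b + (p - 1) * c)) % p = (e i + c) % p := by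
      obtain ⟨q, hq⟩ : ∃ q, p = q + 2 := ⟨p - 2, by have := hp.two_le; omega⟩
      rw [hq]
      have e1 : q + 2 - 1 = q + 1 := by omega
      rw [e1]
      have e2 : e i + b + (q + 1) * (b + (q + 1) * c) = e i + c + (q + 2) * (b + q * c) := by ring
      rw [e2, Nat.add_mul_mod_self_left]
    rw [h1]
  simp only [key]

/-- **Joint translates.** -/
theorem lin_joint (r : ℕ) (h : ℝ) (hh1 : h ≤ 1) (hr3 : 1 ≤ r) (hr : 25 < 3 * (8 * r - 1) * h) (m : ℕ) (hm : 1 ≤ m) (ε : ℝ)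
    (hε : 0 < ε) : ∃ c : ℝ, 0 < c ∧ ∀ (k : ℕ) (η : ℝ), 0 < η → ∃ D X₀ : ℕ, ∀ X : ℕ, X₀ ≤ X → ∀ H : ℕ, (X : ℝ) ^ h ≤ H →
      ∀ A : Fin m → ℕ, (∀ i, H ≤ A i ∧ A i + H ≤ X) →
      ∀ S : Fin m → Finset ℕ, (∀ i, S i ⊆ GLn r ((X : ℝ) ^ (h / 5)) 1 0 (A i) H) →
      (∀ i, ε * ((GLn r ((X : ℝ) ^ (h / 5)) 1 0 (A i) H).card : ℝ) ≤ (S i).card) →
      ∃ e : Fin m → ℕ, ∃ J : Finset ℕ, (∀ y, y ∈ J ↔ (1 ≤ y ∧ y ≤ H ∧ ∀ i, e i + y ∈ S i)) ∧
        c * (H * VV (Zj e) 0 H) ≤ (J.card : ℝ) ∧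
        ∀ S' ⊆ J, η * (J.card : ℝ) ≤ S'.card → ∃ a d : ℕ, 1 ≤ d ∧ (d : ℝ) ≤ Real.log X ^ D ∧ ∀ l < k, a + l * d ∈ S' := by
  classical
  have hr1 : (1 : ℝ) ≤ r := by exact_mod_cast hr3
  have hh0 : 0 < h := by
    by_contra hcon
    push Not at hcon
    nlinarith
  have hl2 : 0 < Real.log 2 := Real.log_pos (by norm_num)
  obtain ⟨δ, hδ, X₁, H1⟩ := lin_count r h hh1 hr3 hr
  obtain ⟨cV, hcV, hlow⟩ := VZ_low 1 le_rfl
  obtain ⟨c', hc', H₂, Hsel⟩ := select m 1 le_rfl (ε * δ) (12 * m ^ 2 / (h * Real.log 2)) (by positivity)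
  refine ⟨c', hc', ?_⟩
  intro k η hη
  obtain ⟨D, H₃, Hap⟩ := ap_dense k (m * 1) (h / 6) (η * c') (by positivity) (by linarith) (by positivity)
  have ev1 : ∀ᶠ X : ℕ in atTop, (H₂ : ℝ) + H₃ + 3 ≤ (X : ℝ) ^ h :=
    ((tendsto_rpow_atTop hh0).comp tendsto_natCast_atTop_atTop).eventually_ge_atTop _
  have ev2 : ∀ᶠ X : ℕ in atTop, 2 * (m : ℝ) ^ 2 * Real.log X ≤ ε * δ * cV * (X : ℝ) ^ h := by
    have h1 : (fun x : ℝ => Real.log x) =o[atTop] fun x => x ^ h := isLittleO_log_rpow_atTop hh0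
    have h2 := h1.def (show (0 : ℝ) < ε * δ * cV / (2 * (m : ℝ) ^ 2 + 1) by positivity)
    have h3 := (tendsto_natCast_atTop_atTop (R := ℝ)).eventually h2
    filter_upwards [h3, eventually_ge_atTop 1] with X hX h1
    have hX1 : (1 : ℝ) ≤ X := by exact_mod_cast h1
    have hl := Real.log_nonneg hX1
    rw [Real.norm_of_nonneg hl, Real.norm_of_nonneg (by positivity)] at hX
    have h4 : (2 * (m : ℝ) ^ 2 + 1) * Real.log X ≤ ε * δ * cV * (X : ℝ) ^ h := by
      calc (2 * (m : ℝ) ^ 2 + 1) * Real.log X ≤ (2 * (m : ℝ) ^ 2 + 1) * (ε * δ * cV / (2 * (m : ℝ) ^ 2 + 1) * (X : ℝ) ^ h) :=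
            mul_le_mul_of_nonneg_left hX (by positivity)
        _ = _ := by field_simp
    linarith
  have ev3 : ∀ᶠ X : ℕ in atTop, (m : ℝ) + 1 ≤ (X : ℝ) ^ (h * (h / 6)) :=
    ((tendsto_rpow_atTop (by positivity)).comp tendsto_natCast_atTop_atTop).eventually_ge_atTop _
  obtain ⟨X₂, hX₂⟩ := eventually_atTop.1 (ev1.and (ev2.and ev3))
  refine ⟨D, max (max X₁ X₂) 3, ?_⟩
  intro X hX H hH A hA S hS hSc
  obtain ⟨g2, g3, g4⟩ := hX₂ X (((le_max_right _ _).trans (le_max_left _ _)).trans hX)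
  have gX1 : X₁ ≤ X := ((le_max_left _ _).trans (le_max_left _ _)).trans hX
  have hX3 : 3 ≤ X := (le_max_right _ _).trans hX
  have hX2 : 2 ≤ X := by omega
  have hXr : (3 : ℝ) ≤ X := by exact_mod_cast hX3
  have hX0 : (0 : ℝ) < X := by linarith
  have hH₂0 : (0 : ℝ) ≤ H₂ := Nat.cast_nonneg _
  have hH₃0 : (0 : ℝ) ≤ H₃ := Nat.cast_nonneg _
  have hXH : H₂ ≤ H := by
    have : (H₂ : ℝ) ≤ H := by linarith
    exact_mod_cast this
  have hXH3 : H₃ ≤ H := by
    have : (H₃ : ℝ) ≤ H := by linarith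
    exact_mod_cast this
  have hH2 : (3 : ℝ) ≤ H := by linarith
  have hH2n : 3 ≤ H := by exact_mod_cast hH2
  have hqa : ∀ i, 1 ≤ 1 ∧ Nat.Coprime 0 1 ∧ 1 * (A i + H) + 0 ≤ X := fun i => ⟨le_rfl, by norm_num, by have := (hA i).2; omega⟩
  have hHX' : H ≤ X := by
    have := (hA ⟨0, hm⟩).2
    omega
  have hHX : (H : ℝ) ≤ X := by exact_mod_cast hHX'
  have hSG : ∀ i, ∀ n ∈ S i, n ∈ Ioc (A i) (A i + H) ∧ ∀ p : ℕ, p.Prime → p ∣ 1 * n + 0 → (X : ℝ) ^ (h / 5) ≤ p := by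
    intro i n hn
    have := hS i hn
    unfold GLn at this
    rw [mem_filter] at this
    exact ⟨this.1, this.2.2.2⟩
  have hSlow : ∀ i, ε * δ * (H * VV (Zl 1 0) 0 H) ≤ ((S i).card : ℝ) := by
    intro i
    obtain ⟨h1, h2, h3⟩ := hqa i
    have g1 := H1 X gX1 1 0 (A i) H h1 h2 h3 hH
    refine le_trans ?_ (hSc i)
    calc ε * δ * (H * VV (Zl 1 0) 0 H) = ε * (δ * (H * VV (Zl 1 0) 0 H)) := by ring
      _ ≤ _ := mul_le_mul_of_nonneg_left g1 hε.le
  have hlX : 0 < Real.log X := Real.log_pos (by linarith)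
  have hlH : 0 < Real.log H := Real.log_pos (by linarith)
  have hlHX : Real.log H ≤ Real.log X := Real.log_le_log (by linarith) hHX
  have hlXH : h * Real.log X ≤ Real.log H := by
    have := Real.log_le_log (by positivity) hH
    rwa [Real.log_rpow (by linarith)] at this
  have hbig : ∀ i, 2 * m ^ 2 ≤ (S i).card := by
    intro i
    have h4 := hlow H (by omega) (Zl 1 0) (Zl_sys (by norm_num))
    rw [pow_one] at h4
    have h5 : 2 * (m : ℝ) ^ 2 ≤ ((S i).card : ℝ) := by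
      refine le_trans ?_ (hSlow i)
      have h6 : cV / Real.log X ≤ VV (Zl 1 0) 0 H :=
        le_trans (div_le_div_of_nonneg_left hcV.le hlH hlHX) h4
      calc 2 * (m : ℝ) ^ 2 ≤ ε * δ * cV * (X : ℝ) ^ h / Real.log X := by
            rw [le_div_iff₀ hlX]
            exact g3
        _ ≤ ε * δ * cV * H / Real.log X := by gcongr
        _ = ε * δ * (H * (cV / Real.log X)) := by ring
        _ ≤ _ := by gcongr
    exact_mod_cast h5
  obtain ⟨hv, I, hI, hIt, hIne, hIc⟩ := Hsel H hXH (fun _ => Zl 1 0) (fun _ => Zl_sys (by norm_num)) A S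
    (fun i n hn => (hSG i n hn).1) hSlow (Good (fun _ => 1) (fun _ => 0)) (fun t x ht => Good_add x ht)
      (bad_card (fun i => le_rfl) S hbig) (by
      intro hv hhv hg z hz
      have h2 : ∀ i, 1 * hv i + 0 ≤ 2 * X := by
        intro i
        rw [Fintype.mem_piFinset] at hhv
        have h4 := mem_Ioc.1 (hhv i)
        have := (hA i).2
        omega
      refine (col_card hX2 hg (fun i => by omega) h2).trans ?_
      have hz0 : Real.log X ≤ 4 * z / h := by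
        rw [le_div_iff₀ hh0]
        linarith
      calc 3 * (m : ℝ) ^ 2 * Real.log X / Real.log 2 ≤ 3 * (m : ℝ) ^ 2 * (4 * z / h) / Real.log 2 := by gcongr
        _ = _ := by
          field_simp
          ring)
  -- the offsets
  have hbase : ∀ i, H + 1 ≤ hv i := by
    intro i
    obtain ⟨x, hx⟩ := hIne
    obtain ⟨t, ht, hht⟩ := hIt x hx i
    have h1 := mem_Ioc.1 (hSG i t ht).1
    have h2 := (hA i).1
    omega
  obtain ⟨e, he⟩ : ∃ e : Fin m → ℕ, e = fun i => hv i - (H + 1) := ⟨_, rfl⟩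
  have hev : ∀ i, hv i = e i + (H + 1) := by
    intro i
    have := hbase i
    rw [he]
    dsimp only
    omega
  obtain ⟨J, hJ⟩ : ∃ J : Finset ℕ, J = (Ioc 0 H).filter (fun y => ∀ i, e i + y ∈ S i) := ⟨_, rfl⟩
  have hJm : ∀ y, y ∈ J ↔ (1 ≤ y ∧ y ≤ H ∧ ∀ i, e i + y ∈ S i) := by
    intro y
    rw [hJ, mem_filter, mem_Ioc]
    constructor
    · rintro ⟨⟨h1, h2⟩, h3⟩
      exact ⟨h1, h2, h3⟩
    · rintro ⟨h1, h2, h3⟩
      exact ⟨⟨h1, h2⟩, h3⟩
  have hIJ : I.card ≤ J.card := by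
    apply card_le_card_of_injOn (fun x => H + 1 - x)
    · intro x hx
      have hx' : x ∈ I := hx
      have h1 := mem_Ioc.1 (hI hx')
      rw [mem_coe, hJm]
      refine ⟨by dsimp only; omega, by dsimp only; omega, ?_⟩
      intro i
      obtain ⟨t, ht, hht⟩ := hIt x hx' i
      have h2 := hev i
      have h3 : e i + (H + 1 - x) = t := by omega
      rw [h3]
      exact ht
    · intro x hx y hy hxy
      have h1 := mem_Ioc.1 (hI hx)
      have h2 := mem_Ioc.1 (hI hy)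
      dsimp only at hxy
      omega
  have hVV : VV (Zh (fun _ : Fin m => Zl 1 0) hv) 0 H = VV (Zj e) 0 H := by
    unfold VV
    apply prod_congr rfl
    intro p hp
    rw [Zh_Zj hev (Pr_prime hp)]
  have hJc : c' * (H * VV (Zj e) 0 H) ≤ (J.card : ℝ) := by
    rw [← hVV]
    refine hIc.trans ?_
    exact_mod_cast hIJ
  refine ⟨e, J, hJm, hJc, ?_⟩
  intro S' hS' hS'c
  -- the system of the joint translates
  have havoid : ∀ y ∈ J, ∀ p : ℕ, p.Prime → (p : ℝ) ≤ (H : ℝ) ^ (h / 6) → y % p ∉ Zj e p := by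
    intro y hy p hp hpH hmem
    rw [mem_Zj hp.pos] at hmem
    obtain ⟨i, hi⟩ := hmem
    have h1 := (hSG i _ (((hJm y).1 hy).2.2 i)).2 p hp (by rwa [one_mul, add_zero])
    have h2 : (H : ℝ) ^ (h / 6) ≤ (X : ℝ) ^ (h / 6) := Real.rpow_le_rpow (by linarith) hHX (by positivity)
    have h3 : (X : ℝ) ^ (h / 6) < (X : ℝ) ^ (h / 5) := Real.rpow_lt_rpow_of_exponent_lt (by linarith) (by linarith)
    linarith
  have hJne : J.Nonempty := by
    rw [← card_pos]
    exact lt_of_lt_of_le hIne.card_pos hIJ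
  have hlt : ∀ p, ∀ c ∈ Zj e p, c < p := by
    intro p c hc
    unfold Zj at hc
    exact mem_range.1 (mem_filter.1 hc).1
  have hcardm : ∀ p : ℕ, p.Prime → (Zj e p).card ≤ m * 1 := by
    intro p hp
    rw [Zj_card e hp.pos, mul_one]
    calc (univ.image (fun i => e i % p)).card ≤ (univ : Finset (Fin m)).card := card_image_le
      _ = m := by rw [card_univ, Fintype.card_fin]
  have hsys : SysZ (m * 1) (Zj e) := by
    refine ⟨hcardm, fun p hp => ?_, fun p _ => hlt p⟩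
    by_cases hpH : (p : ℝ) ≤ (H : ℝ) ^ (h / 6)
    · obtain ⟨x, hx⟩ := hJne
      have h1 := havoid x hx p hp hpH
      have h2 : Zj e p ⊂ range p := by
        rw [Finset.ssubset_iff_of_subset (fun c hc => mem_range.2 (hlt p c hc))]
        exact ⟨x % p, mem_range.2 (Nat.mod_lt _ hp.pos), h1⟩
      have h3 := card_lt_card h2
      rwa [card_range] at h3
    · push Not at hpH
      have h1 := hcardm p hp
      have h2 : (X : ℝ) ^ (h * (h / 6)) ≤ (H : ℝ) ^ (h / 6) := by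
        rw [Real.rpow_mul hX0.le]
        exact Real.rpow_le_rpow (by positivity) hH (by positivity)
      have h3 : (m : ℝ) < p := by linarith
      have h4 : m < p := by exact_mod_cast h3
      omega
  obtain ⟨a, d, hd1, hd2, hd3⟩ := Hap H hXH3 (Zj e) hsys 0 S' (by
    intro y hy
    rw [Nat.zero_add, mem_Ioc]
    have := (hJm y).1 (hS' hy)
    exact ⟨this.1, this.2.1⟩) (fun y hy => havoid y (hS' hy)) (by
    calc η * c' * (H * VV (Zj e) 0 H) = η * (c' * (H * VV (Zj e) 0 H)) := by ring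
      _ ≤ η * (J.card : ℝ) := mul_le_mul_of_nonneg_left hJc hη.le
      _ ≤ _ := hS'c)
  exact ⟨a, d, hd1, hd2.trans (pow_le_pow_left₀ hlH.le hlHX D), hd3⟩

end Pool.Agent.Q204.CD
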