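import Pool.Agent.Q204.CD.Sim
import Pool.Agent.Q253.Cov.LinW

/-!
# Almost primes in windows of several arithmetic progressions: common differences
-/

set_option autoImplicit false

namespace Pool.Agent.Q204.CD

open Finset Filter
open Pool.Agent.Y843.HS (Pr VV Pr_mem Pr_prime VV_split)
open Pool.Agent.Q253.Thin (SysZ VZ_nonneg VZ_le_one VZ_low)
open Pool.Agent.Q253.Cov (GLn lin_count Zl_sys)
open Pool.Agent.Q253.P3 (Zl Zl_card mem_Zl)

/-- the linear forms take different values, up to the leading coefficients -/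
def Good {m : ℕ} (q a : Fin m → ℕ) (t : Fin m → ℕ) : Prop :=
  ∀ i j : Fin m, i ≠ j → q j * (q i * t i + a i) ≠ q i * (q j * t j + a j)

theorem Good_add {m : ℕ} {q a t : Fin m → ℕ} (x : ℕ) (h : Good q a t) : Good q a (fun i => t i + x) := by
  intro i j hij he
  apply h i j hij
  have e1 : q j * (q i * (t i + x) + a i) = q j * (q i * t i + a i) + q i * q j * x := by ring
  have e2 : q i * (q j * (t j + x) + a j) = q i * (q j * t j + a j) + q i * q j * x := by ring
  dsimp only at he
  rw [e1, e2] at he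
  omega

/-- the collisions -/
theorem col_dvd {m : ℕ} {q a h : Fin m → ℕ} {p : ℕ} (hp : p.Prime) (hc : Col (fun i => Zl (q i) (a i)) h p) :
    ∃ i j : Fin m, i ≠ j ∧ p ∣ Int.natAbs ((q j * (q i * h i + a i) : ℕ) - (q i * (q j * h j + a j) : ℕ) : ℤ) := by
  obtain ⟨i, j, hij, c, h1, h2⟩ := hc
  refine ⟨i, j, hij, ?_⟩
  rw [mem_Zl hp] at h1 h2
  rw [← Int.natCast_dvd]
  have h3 : (p : ℤ) ∣ ((q i * (h i + (p - 1) * c) + a i : ℕ) : ℤ) := by exact_mod_cast h1
  have h4 : (p : ℤ) ∣ ((q j * (h j + (p - 1) * c) + a j : ℕ) : ℤ) := by exact_mod_cast h2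
  have h5 := dvd_sub (dvd_mul_of_dvd_right h3 (q j : ℤ)) (dvd_mul_of_dvd_right h4 (q i : ℤ))
  have e : ((q j * (q i * h i + a i) : ℕ) - (q i * (q j * h j + a j) : ℕ) : ℤ) =
      (q j : ℤ) * ((q i * (h i + (p - 1) * c) + a i : ℕ) : ℤ) - (q i : ℤ) * ((q j * (h j + (p - 1) * c) + a j : ℕ) : ℤ) := by
    push_cast
    ring
  rw [e]
  exact h5

open Classical in
/-- few primes have collisions -/
theorem col_card {m : ℕ} {q a h : Fin m → ℕ} {X z H : ℕ} (hX : 2 ≤ X) (hg : Good q a h) (hq : ∀ i, q i ≤ X)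
    (hh : ∀ i, q i * h i + a i ≤ 2 * X) :
    (((Pr z H).filter (fun p => Col (fun i => Zl (q i) (a i)) h p)).card : ℝ) ≤ 3 * m ^ 2 * Real.log X / Real.log 2 := by
  have hXr : (2 : ℝ) ≤ X := by exact_mod_cast hX
  have hl2 : 0 < Real.log 2 := Real.log_pos (by norm_num)
  set F : Fin m × Fin m → ℕ := fun ij => Int.natAbs ((q ij.2 * (q ij.1 * h ij.1 + a ij.1) : ℕ) -
    (q ij.1 * (q ij.2 * h ij.2 + a ij.2) : ℕ) : ℤ) with hF
  have hF0 : ∀ ij ∈ (univ : Finset (Fin m)).offDiag, F ij ≠ 0 := by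
    intro ij hij
    rw [mem_offDiag] at hij
    have h1 := hg ij.1 ij.2 hij.2.2
    rw [hF]
    dsimp only
    omega
  have hFX : ∀ ij : Fin m × Fin m, F ij ≤ X ^ 3 := by
    intro ij
    have h1 : q ij.2 * (q ij.1 * h ij.1 + a ij.1) ≤ X * (2 * X) := Nat.mul_le_mul (hq _) (hh _)
    have h2 : q ij.1 * (q ij.2 * h ij.2 + a ij.2) ≤ X * (2 * X) := Nat.mul_le_mul (hq _) (hh _)
    have h3 : F ij ≤ X * (2 * X) := by
      rw [hF]
      dsimp only
      omega
    calc F ij ≤ X * (2 * X) := h3
      _ ≤ X * (X * X) := Nat.mul_le_mul_left _ (Nat.mul_le_mul_right _ hX)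
      _ = X ^ 3 := by ring
  have hsub : (Pr z H).filter (fun p => Col (fun i => Zl (q i) (a i)) h p) ⊆
      (univ : Finset (Fin m)).offDiag.biUnion (fun ij => (F ij).primeFactors) := by
    intro p hp
    rw [mem_filter] at hp
    have hpp := Pr_prime hp.1
    obtain ⟨i, j, hij, hd⟩ := col_dvd hpp hp.2
    rw [mem_biUnion]
    have hmem : (i, j) ∈ (univ : Finset (Fin m)).offDiag := by
      rw [mem_offDiag]
      exact ⟨mem_univ _, mem_univ _, hij⟩
    refine ⟨(i, j), hmem, ?_⟩
    rw [Nat.mem_primeFactors]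
    exact ⟨hpp, hd, hF0 _ hmem⟩
  have hpf : ∀ N : ℕ, 1 ≤ N → (N.primeFactors.card : ℝ) * Real.log 2 ≤ Real.log N := by
    intro N hN
    have h1 : 2 ^ N.primeFactors.card ≤ N := by
      calc 2 ^ N.primeFactors.card = ∏ _p ∈ N.primeFactors, 2 := by rw [prod_const]
        _ ≤ ∏ p ∈ N.primeFactors, p := Finset.prod_le_prod' fun p hp => (Nat.prime_of_mem_primeFactors hp).two_le
        _ ≤ N := Nat.le_of_dvd hN (Nat.prod_primeFactors_dvd N)
    have h2 : ((2 : ℝ) ^ N.primeFactors.card) ≤ N := by exact_mod_cast h1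
    have h3 := Real.log_le_log (by positivity) h2
    rwa [Real.log_pow] at h3
  rw [le_div_iff₀ hl2]
  calc (((Pr z H).filter (fun p => Col (fun i => Zl (q i) (a i)) h p)).card : ℝ) * Real.log 2 ≤
        ((∑ ij ∈ (univ : Finset (Fin m)).offDiag, (F ij).primeFactors.card : ℕ) : ℝ) * Real.log 2 := by
        apply mul_le_mul_of_nonneg_right _ hl2.le
        exact_mod_cast (card_le_card hsub).trans card_biUnion_le
    _ = ∑ ij ∈ (univ : Finset (Fin m)).offDiag, ((F ij).primeFactors.card : ℝ) * Real.log 2 := by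
        push_cast
        rw [sum_mul]
    _ ≤ ∑ _ij ∈ (univ : Finset (Fin m)).offDiag, 3 * Real.log X := by
        apply sum_le_sum
        intro ij hij
        have h0 := hF0 ij hij
        have h1 := hpf (F ij) (by omega)
        have h2 : (F ij : ℝ) ≤ (X : ℝ) ^ 3 := by exact_mod_cast hFX ij
        have h3 : (0 : ℝ) < F ij := by exact_mod_cast Nat.pos_of_ne_zero h0
        have h4 := Real.log_le_log h3 h2
        rw [Real.log_pow] at h4
        push_cast at h4
        linarith
    _ = ((univ : Finset (Fin m)).offDiag.card : ℝ) * (3 * Real.log X) := by rw [sum_const, nsmul_eq_mul]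
    _ ≤ (m : ℝ) ^ 2 * (3 * Real.log X) := by
        apply mul_le_mul_of_nonneg_right
        · have h1 : (univ : Finset (Fin m)).offDiag.card ≤ m ^ 2 := by
            rw [offDiag_card, card_univ, Fintype.card_fin]
            rw [sq]
            omega
          exact_mod_cast h1
        · have := Real.log_nonneg (by linarith : (1 : ℝ) ≤ X)
          positivity
    _ = _ := by ring

open Classical in
/-- few tuples are bad -/
theorem bad_card {m : ℕ} {q a : Fin m → ℕ} (hq : ∀ i, 1 ≤ q i) (T : Fin m → Finset ℕ) (hT : ∀ i, 2 * m ^ 2 ≤ (T i).card) :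
    2 * ((Fintype.piFinset T).filter (fun t => ¬ Good q a t)).card ≤ (Fintype.piFinset T).card := by
  have hsub : (Fintype.piFinset T).filter (fun t => ¬ Good q a t) ⊆ (univ : Finset (Fin m)).offDiag.biUnion
      (fun ij => (Fintype.piFinset T).filter (fun t => q ij.2 * (q ij.1 * t ij.1 + a ij.1) = q ij.1 * (q ij.2 * t ij.2 + a ij.2))) := by
    intro t ht
    rw [mem_filter] at ht
    have h1 := ht.2
    unfold Good at h1
    push Not at h1
    obtain ⟨i, j, hij, he⟩ := h1
    rw [mem_biUnion]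
    refine ⟨(i, j), ?_, ?_⟩
    · rw [mem_offDiag]
      exact ⟨mem_univ _, mem_univ _, hij⟩
    · rw [mem_filter]
      exact ⟨ht.1, he⟩
  have hone : ∀ ij ∈ (univ : Finset (Fin m)).offDiag, 2 * m ^ 2 *
      ((Fintype.piFinset T).filter (fun t => q ij.2 * (q ij.1 * t ij.1 + a ij.1) = q ij.1 * (q ij.2 * t ij.2 + a ij.2))).card ≤
      (Fintype.piFinset T).card := by
    rintro ⟨i, j⟩ hij
    rw [mem_offDiag] at hij
    have hne : i ≠ j := hij.2.2
    dsimp only
    set E := (Fintype.piFinset T).filter (fun t => q j * (q i * t i + a i) = q i * (q j * t j + a j)) with hE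
    calc 2 * m ^ 2 * E.card ≤ (T i).card * E.card := Nat.mul_le_mul_right _ (hT i)
      _ = (T i ×ˢ E).card := (card_product _ _).symm
      _ ≤ (Fintype.piFinset T).card := by
        apply card_le_card_of_injOn (fun st => Function.update st.2 i st.1)
        · rintro ⟨s, t⟩ hst
          rw [mem_coe, mem_product, hE, mem_filter, Fintype.mem_piFinset] at hst
          rw [mem_coe, Fintype.mem_piFinset]
          intro l
          dsimp only
          by_cases hl : l = i
          · subst hl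
            rw [Function.update_self]
            exact hst.1
          · rw [Function.update_of_ne hl]
            exact hst.2.1 l
        · rintro ⟨s, t⟩ hst ⟨s', t'⟩ hst' he
          rw [mem_coe, mem_product, hE, mem_filter, Fintype.mem_piFinset] at hst hst'
          dsimp only at he hst hst'
          have h1 : s = s' := by
            have := congrFun he i
            rwa [Function.update_self, Function.update_self] at this
          have h2 : ∀ l, l ≠ i → t l = t' l := by
            intro l hl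
            have := congrFun he l
            rwa [Function.update_of_ne hl, Function.update_of_ne hl] at this
          have h3 : t i = t' i := by
            have e1 := hst.2.2
            have e2 := hst'.2.2
            rw [← h2 j (Ne.symm hne)] at e2
            have e3 : q j * (q i * t i + a i) = q j * (q i * t' i + a i) := by rw [e1, e2]
            have e4 := Nat.eq_of_mul_eq_mul_left (hq j) e3
            have e5 : q i * t i = q i * t' i := by omega
            exact Nat.eq_of_mul_eq_mul_left (hq i) e5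
          have h4 : t = t' := by
            funext l
            by_cases hl : l = i
            · rw [hl]
              exact h3
            · exact h2 l hl
          rw [h1, h4]
  rcases Nat.eq_zero_or_pos m with hm | hm
  · subst hm
    have : (Fintype.piFinset T).filter (fun t => ¬ Good q a t) = ∅ := by
      rw [filter_eq_empty_iff]
      intro t _ h
      exact h (fun i => i.elim0)
    rw [this, card_empty]
    omega
  · have h1 : 2 * m ^ 2 * ((Fintype.piFinset T).filter (fun t => ¬ Good q a t)).card ≤ m ^ 2 * (Fintype.piFinset T).card := by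
      calc 2 * m ^ 2 * ((Fintype.piFinset T).filter (fun t => ¬ Good q a t)).card ≤
            2 * m ^ 2 * ∑ ij ∈ (univ : Finset (Fin m)).offDiag,
              ((Fintype.piFinset T).filter (fun t => q ij.2 * (q ij.1 * t ij.1 + a ij.1) = q ij.1 * (q ij.2 * t ij.2 + a ij.2))).card :=
            Nat.mul_le_mul_left _ ((card_le_card hsub).trans card_biUnion_le)
        _ = ∑ ij ∈ (univ : Finset (Fin m)).offDiag, 2 * m ^ 2 *
              ((Fintype.piFinset T).filter (fun t => q ij.2 * (q ij.1 * t ij.1 + a ij.1) = q ij.1 * (q ij.2 * t ij.2 + a ij.2))).card := by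
            rw [mul_sum]
        _ ≤ ∑ _ij ∈ (univ : Finset (Fin m)).offDiag, (Fintype.piFinset T).card := sum_le_sum hone
        _ = (univ : Finset (Fin m)).offDiag.card * (Fintype.piFinset T).card := by rw [sum_const, smul_eq_mul]
        _ ≤ m ^ 2 * (Fintype.piFinset T).card := by
            apply Nat.mul_le_mul_right
            rw [offDiag_card, card_univ, Fintype.card_fin, sq]
            omega
    have h2 : m ^ 2 * (2 * ((Fintype.piFinset T).filter (fun t => ¬ Good q a t)).card) ≤ m ^ 2 * (Fintype.piFinset T).card := by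
      calc m ^ 2 * (2 * ((Fintype.piFinset T).filter (fun t => ¬ Good q a t)).card) =
          2 * m ^ 2 * ((Fintype.piFinset T).filter (fun t => ¬ Good q a t)).card := by ring
        _ ≤ _ := h1
    exact Nat.le_of_mul_le_mul_left h2 (by positivity)

/-- **Common differences in windows of arithmetic progressions.** -/
theorem lin_sim (r : ℕ) (h : ℝ) (hh1 : h ≤ 1) (hr3 : 1 ≤ r) (hr : 25 < 3 * (8 * r - 1) * h) (m k : ℕ) (ε : ℝ) (hε : 0 < ε) :
    ∃ D X₀ : ℕ, ∀ X : ℕ, X₀ ≤ X → ∀ H : ℕ, (X : ℝ) ^ h ≤ H → ∀ q a A : Fin m → ℕ,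
      (∀ i, 1 ≤ q i ∧ Nat.Coprime (a i) (q i) ∧ q i * (A i + H) + a i ≤ X) →
      ∀ S : Fin m → Finset ℕ, (∀ i, S i ⊆ GLn r ((X : ℝ) ^ (h / 5)) (q i) (a i) (A i) H) →
      (∀ i, ε * ((GLn r ((X : ℝ) ^ (h / 5)) (q i) (a i) (A i) H).card : ℝ) ≤ (S i).card) →
      ∃ d : ℕ, 1 ≤ d ∧ (d : ℝ) ≤ Real.log X ^ D ∧ ∃ j : Fin m → ℕ, ∀ i, ∀ l < k, j i + l * d ∈ S i := by
  classical
  have hr1 : (1 : ℝ) ≤ r := by exact_mod_cast hr3
  have hh0 : 0 < h := by
    by_contra hcon
    push Not at hcon
    nlinarith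
  have hl2 : 0 < Real.log 2 := Real.log_pos (by norm_num)
  obtain ⟨δ, hδ, X₁, H1⟩ := lin_count r h hh1 hr3 hr
  obtain ⟨cV, hcV, hlow⟩ := VZ_low 1 le_rfl
  obtain ⟨D, H₂, H2⟩ := sim m k 1 le_rfl (h / 6) (ε * δ) (12 * m ^ 2 / (h * Real.log 2)) (by positivity) (by linarith) (by positivity)
  have ev1 : ∀ᶠ X : ℕ in atTop, (H₂ : ℝ) + 2 ≤ (X : ℝ) ^ h :=
    ((tendsto_rpow_atTop hh0).comp tendsto_natCast_atTop_atTop).eventually_ge_atTop _
  have ev2 : ∀ᶠ X : ℕ in atTop, 2 * (m : ℝ) ^ 2 * Real.log X ≤ ε * δ * cV * (X : ℝ) ^ h := by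
    have h1 : (fun x : ℝ => Real.log x) =o[atTop] fun x => x ^ h := isLittleO_log_rpow_atTop hh0
    have h2 := h1.def (show (0 : ℝ) < ε * δ * cV / (2 * (m : ℝ) ^ 2 + 1) by positivity)
    have h3 := (tendsto_natCast_atTop_atTop (R := ℝ)).eventually h2
    filter_upwards [h3, eventually_ge_atTop 1] with X hX h1
    have hX1 : (1 : ℝ) ≤ X := by exact_mod_cast h1
    have hl := Real.log_nonneg hX1
    rw [Real.norm_of_nonneg hl, Real.norm_of_nonneg (by positivity)] at hX
    have h4 : (2 * (m : ℝ) ^ 2 + 1) * Real.log X ≤ ε * δ * cV * (X : ℝ) ^ h := by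
      calc (2 * (m : ℝ) ^ 2 + 1) * Real.log X ≤ (2 * (m : ℝ) ^ 2 + 1) * (ε * δ * cV / (2 * (m : ℝ) ^ 2 + 1) * (X : ℝ) ^ h) :=
            mul_le_mul_of_nonneg_left hX (by positivity)
        _ = _ := by field_simp
    linarith
  obtain ⟨X₂, hX₂⟩ := eventually_atTop.1 (ev1.and ev2)
  refine ⟨D, max (max X₁ X₂) 3, ?_⟩
  intro X hX H hH q a A hqa S hS hSc
  obtain ⟨g2, g3⟩ := hX₂ X (((le_max_right _ _).trans (le_max_left _ _)).trans hX)
  have gX1 : X₁ ≤ X := ((le_max_left _ _).trans (le_max_left _ _)).trans hX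
  have hX3 : 3 ≤ X := (le_max_right _ _).trans hX
  have hX2 : 2 ≤ X := by omega
  have hXr : (2 : ℝ) ≤ X := by exact_mod_cast hX2
  have hXH : H₂ ≤ H := by
    have : (H₂ : ℝ) ≤ H := by linarith
    exact_mod_cast this
  have hH2 : (2 : ℝ) ≤ H := by
    have : (0 : ℝ) ≤ H₂ := Nat.cast_nonneg _
    linarith
  have hH2n : 2 ≤ H := by exact_mod_cast hH2
  rcases Nat.eq_zero_or_pos m with hm | hm
  · subst hm
    refine ⟨1, le_rfl, ?_, fun i => i.elim0, fun i => i.elim0⟩
    have h1 : (1 : ℝ) ≤ Real.log X := by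
      rw [Real.le_log_iff_exp_le (by linarith)]
      have h2 := Real.exp_one_lt_d9
      have h3 : (3 : ℝ) ≤ X := by exact_mod_cast hX3
      linarith
    rw [Nat.cast_one]
    exact one_le_pow₀ h1
  have hHX' : H ≤ X := by
    obtain ⟨h1, _, h3⟩ := hqa ⟨0, hm⟩
    nlinarith
  have hHX : (H : ℝ) ≤ X := by exact_mod_cast hHX'
  have hSG : ∀ i, ∀ n ∈ S i, n ∈ Ioc (A i) (A i + H) ∧ ∀ p : ℕ, p.Prime → p ∣ q i * n + a i → (X : ℝ) ^ (h / 5) ≤ p := by
    intro i n hn
    have := hS i hn
    unfold GLn at this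
    rw [mem_filter] at this
    exact ⟨this.1, this.2.2.2⟩
  have hSlow : ∀ i, ε * δ * (H * VV (Zl (q i) (a i)) 0 H) ≤ ((S i).card : ℝ) := by
    intro i
    obtain ⟨h1, h2, h3⟩ := hqa i
    have g1 := H1 X gX1 (q i) (a i) (A i) H h1 h2 h3 hH
    refine le_trans ?_ (hSc i)
    calc ε * δ * (H * VV (Zl (q i) (a i)) 0 H) = ε * (δ * (H * VV (Zl (q i) (a i)) 0 H)) := by ring
      _ ≤ _ := mul_le_mul_of_nonneg_left g1 hε.le
  have hlX : 0 < Real.log X := Real.log_pos (by linarith)
  have hlH : 0 < Real.log H := Real.log_pos (by linarith)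
  have hlHX : Real.log H ≤ Real.log X := Real.log_le_log (by linarith) hHX
  have hlXH : h * Real.log X ≤ Real.log H := by
    have := Real.log_le_log (by positivity) hH
    rwa [Real.log_rpow (by linarith)] at this
  have hbig : ∀ i, 2 * m ^ 2 ≤ (S i).card := by
    intro i
    obtain ⟨h1, h2, h3⟩ := hqa i
    have h4 := hlow H hH2n (Zl (q i) (a i)) (Zl_sys h2)
    rw [pow_one] at h4
    have h5 : 2 * (m : ℝ) ^ 2 ≤ ((S i).card : ℝ) := by
      refine le_trans ?_ (hSlow i)
      have h6 : cV / Real.log X ≤ VV (Zl (q i) (a i)) 0 H :=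
        le_trans (div_le_div_of_nonneg_left hcV.le hlH hlHX) h4
      calc 2 * (m : ℝ) ^ 2 ≤ ε * δ * cV * (X : ℝ) ^ h / Real.log X := by
            rw [le_div_iff₀ hlX]
            exact g3
        _ ≤ ε * δ * cV * H / Real.log X := by gcongr
        _ = ε * δ * (H * (cV / Real.log X)) := by ring
        _ ≤ _ := by gcongr
    exact_mod_cast h5
  obtain ⟨d, hd1, hd2, j, hj⟩ := H2 H hXH (fun i => Zl (q i) (a i)) (fun i => Zl_sys (hqa i).2.1) A S
    (fun i n hn => (hSG i n hn).1) (by
      intro i n hn p hpp hpH hmem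
      rw [mem_Zl hpp] at hmem
      have h1 := (hSG i n hn).2 p hpp hmem
      have h2 : (H : ℝ) ^ (h / 6) ≤ (X : ℝ) ^ (h / 6) := Real.rpow_le_rpow (by linarith) hHX (by positivity)
      have h3 : (X : ℝ) ^ (h / 6) < (X : ℝ) ^ (h / 5) := Real.rpow_lt_rpow_of_exponent_lt (by linarith) (by linarith)
      linarith) hSlow (Good q a) (fun t x ht => Good_add x ht) (bad_card (fun i => (hqa i).1) S hbig) (by
      intro hv hhv hg z hz
      have h1 : ∀ i, q i ≤ X := by
        intro i
        obtain ⟨h1, _, h3⟩ := hqa i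
        nlinarith
      have h2 : ∀ i, q i * hv i + a i ≤ 2 * X := by
        intro i
        obtain ⟨h1, _, h3⟩ := hqa i
        rw [Fintype.mem_piFinset] at hhv
        have h4 := mem_Ioc.1 (hhv i)
        have h5 : q i * hv i ≤ q i * (A i + 2 * H) := Nat.mul_le_mul_left _ h4.2
        have h6 : q i * (A i + 2 * H) = q i * (A i + H) + q i * H := by ring
        have h7 : q i * H ≤ q i * (A i + H) := Nat.mul_le_mul_left _ (by omega)
        omega
      refine (col_card hX2 hg h1 h2).trans ?_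
      have hz0 : Real.log X ≤ 4 * z / h := by
        rw [le_div_iff₀ hh0]
        linarith
      calc 3 * (m : ℝ) ^ 2 * Real.log X / Real.log 2 ≤ 3 * (m : ℝ) ^ 2 * (4 * z / h) / Real.log 2 := by gcongr
        _ = _ := by
          field_simp
          ring)
  refine ⟨d, hd1, hd2.trans ?_, j, hj⟩
  exact pow_le_pow_left₀ hlH.le hlHX D

end Pool.Agent.Q204.CD
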