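import Pool.Agent.Q204.CD.Col

/-!
# Joint sifting systems of several windows: the choice of the shifts
-/

set_option autoImplicit false

namespace Pool.Agent.Q204.CD

open Finset Filter
open Pool.Agent.Y843.HS (Pr VV Pr_mem Pr_prime VV_split)
open Pool.Agent.Q253.Thin (SysZ VZ_nonneg VZ_le_one VZ_low)

/-- the product of the primes `≤ log H / 3` is small -/
theorem prod_Pr_le (z : ℕ) : (∏ p ∈ Pr 0 z, (p : ℝ)) ≤ 4 ^ z := by
  have h1 : (∏ p ∈ Pr 0 z, p) ≤ 4 ^ z := by
    refine le_trans (le_of_eq ?_) (primorial_le_four_pow z)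
    unfold primorial
    apply prod_congr _ (fun _ _ => rfl)
    ext p
    rw [Pr_mem, mem_filter, mem_range]
    constructor
    · rintro ⟨⟨_, h2⟩, h3⟩
      exact ⟨by omega, h3⟩
    · rintro ⟨h2, h3⟩
      exact ⟨⟨h3.pos, by omega⟩, h3⟩
  calc (∏ p ∈ Pr 0 z, (p : ℝ)) = ((∏ p ∈ Pr 0 z, p : ℕ) : ℝ) := by push_cast; rfl
    _ ≤ ((4 ^ z : ℕ) : ℝ) := by exact_mod_cast h1
    _ = 4 ^ z := by push_cast; rfl

/-- the parameters -/
theorem params (r : ℕ) (hr : 1 ≤ r) (E : ℝ) : ∃ H₀ : ℕ, ∀ H : ℕ, H₀ ≤ H → ∃ z : ℕ, E ≤ z ∧ 2 ≤ z ∧ z ≤ H ∧ Real.log H ≤ 4 * z ∧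
    ∀ Z : ℕ → Finset ℕ, SysZ r Z → (∏ p ∈ Pr 0 z, (p : ℝ)) ≤ H * VV Z 0 z := by
  obtain ⟨cV, hcV, hlow⟩ := VZ_low r hr
  have e1 : ∀ᶠ H : ℕ in atTop, max 24 (3 * (E + 1)) ≤ Real.log H :=
    (Real.tendsto_log_atTop.comp tendsto_natCast_atTop_atTop).eventually_ge_atTop _
  have e2 : ∀ᶠ H : ℕ in atTop, Real.log H ^ r ≤ cV * (H : ℝ) ^ (1 / 2 : ℝ) := by
    have h1 : (fun x : ℝ => Real.log x ^ r) =o[atTop] fun x => x ^ (1 / 2 : ℝ) :=
      isLittleO_log_rpow_rpow_atTop r (by norm_num : (0 : ℝ) < 1 / 2) |>.congr_left (fun x => by rw [Real.rpow_natCast])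
    have h2 := h1.def hcV
    have h3 := (tendsto_natCast_atTop_atTop (R := ℝ)).eventually h2
    filter_upwards [h3, eventually_ge_atTop 1] with H hH h1
    have hH1 : (1 : ℝ) ≤ H := by exact_mod_cast h1
    rwa [Real.norm_of_nonneg (pow_nonneg (Real.log_nonneg hH1) _), Real.norm_of_nonneg (by positivity)] at hH
  obtain ⟨H₀, hH₀⟩ := eventually_atTop.1 (e1.and (e2.and (eventually_ge_atTop 3)))
  refine ⟨H₀, ?_⟩
  intro H hH
  obtain ⟨g1, g2, g3⟩ := hH₀ H hH
  have hHr : (3 : ℝ) ≤ H := by exact_mod_cast g3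
  have hH0 : (0 : ℝ) < H := by linarith
  have g4 : 24 ≤ Real.log H := (le_max_left _ _).trans g1
  have g5 : 3 * (E + 1) ≤ Real.log H := (le_max_right _ _).trans g1
  obtain ⟨z, hz⟩ : ∃ z : ℕ, z = ⌊Real.log H / 3⌋₊ := ⟨_, rfl⟩
  have hz1 : (z : ℝ) ≤ Real.log H / 3 := by
    rw [hz]
    exact Nat.floor_le (by positivity)
  have hz2 : Real.log H / 3 < z + 1 := by
    rw [hz]
    exact Nat.lt_floor_add_one _
  have hlogH : Real.log H ≤ H := by
    have := Real.add_one_le_exp (Real.log H)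
    rw [Real.exp_log hH0] at this
    linarith
  have hz3 : 2 ≤ z := by
    have : (2 : ℝ) ≤ z := by linarith
    exact_mod_cast this
  refine ⟨z, by linarith, hz3, ?_, by linarith, ?_⟩
  · have : (z : ℝ) ≤ H := by linarith
    exact_mod_cast this
  · intro Z hZ
    have h1 := hlow z hz3 Z hZ
    have hzr : (2 : ℝ) ≤ z := by exact_mod_cast hz3
    have hlz : 0 < Real.log z := Real.log_pos (by linarith)
    have hlz2 : Real.log z ≤ Real.log H := Real.log_le_log (by linarith) (by linarith)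
    have h2 : (4 : ℝ) ^ z ≤ (H : ℝ) ^ (1 / 2 : ℝ) := by
      rw [← Real.rpow_natCast, Real.rpow_def_of_pos (by norm_num : (0 : ℝ) < 4), Real.rpow_def_of_pos hH0]
      apply Real.exp_le_exp.2
      have h4 : Real.log 4 ≤ 1.4 := by
        have h5 : (4 : ℝ) = 2 ^ 2 := by norm_num
        rw [h5, Real.log_pow]
        have := Real.log_two_lt_d9
        norm_num at *
        linarith
      have hz0 : (0 : ℝ) ≤ z := by positivity
      nlinarith
    have h3 : (H : ℝ) ^ (1 / 2 : ℝ) * (H : ℝ) ^ (1 / 2 : ℝ) = H := by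
      rw [← Real.rpow_add hH0]
      norm_num
    have h4 : 1 ≤ (H : ℝ) ^ (1 / 2 : ℝ) * VV Z 0 z := by
      have h5 : Real.log z ^ r ≤ Real.log H ^ r := pow_le_pow_left₀ hlz.le hlz2 r
      have h6 : 1 ≤ (H : ℝ) ^ (1 / 2 : ℝ) * (cV / Real.log z ^ r) := by
        rw [mul_div_assoc', le_div_iff₀ (by positivity), one_mul]
        linarith
      refine h6.trans ?_
      exact mul_le_mul_of_nonneg_left h1 (by positivity)
    calc (∏ p ∈ Pr 0 z, (p : ℝ)) ≤ (H : ℝ) ^ (1 / 2 : ℝ) := (prod_Pr_le z).trans h2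
      _ ≤ (H : ℝ) ^ (1 / 2 : ℝ) * ((H : ℝ) ^ (1 / 2 : ℝ) * VV Z 0 z) := by
          nlinarith [Real.rpow_pos_of_pos hH0 (1 / 2 : ℝ)]
      _ = _ := by rw [← mul_assoc, h3]

open Classical in
/-- **The choice of the shifts.** -/
theorem select (m r : ℕ) (hr : 1 ≤ r) (c B : ℝ) (hc : 0 < c) : ∃ c' : ℝ, 0 < c' ∧ ∃ H₀ : ℕ, ∀ H : ℕ, H₀ ≤ H →
    ∀ Z : Fin m → ℕ → Finset ℕ, (∀ i, SysZ r (Z i)) → ∀ A : Fin m → ℕ, ∀ T : Fin m → Finset ℕ,
    (∀ i, T i ⊆ Ioc (A i) (A i + H)) → (∀ i, c * (H * VV (Z i) 0 H) ≤ ((T i).card : ℝ)) →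
    ∀ Good : (Fin m → ℕ) → Prop, (∀ t x, Good t → Good (fun i => t i + x)) →
    (2 * ((Fintype.piFinset T).filter (fun t => ¬ Good t)).card ≤ (Fintype.piFinset T).card) →
    (∀ h ∈ Fintype.piFinset (fun i => Ioc (A i) (A i + 2 * H)), Good h → ∀ z : ℕ, Real.log H ≤ 4 * z →
      (((Pr z H).filter (fun p => Col Z h p)).card : ℝ) ≤ B * z) →
    ∃ h : Fin m → ℕ, ∃ I ⊆ Ioc 0 H, (∀ x ∈ I, ∀ i, ∃ t ∈ T i, h i = t + x) ∧ I.Nonempty ∧
      c' * (H * VV (Zh Z h) 0 H) ≤ (I.card : ℝ) := by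
  obtain ⟨K, hK⟩ : ∃ K : ℝ, K = Real.exp (2 * r * m * B) := ⟨_, rfl⟩
  have hK0 : 0 < K := by rw [hK]; exact Real.exp_pos _
  obtain ⟨H₁, hpar⟩ := params r hr (2 * r)
  refine ⟨c ^ m / (4 * K * 3 ^ m), by positivity, max H₁ 1, ?_⟩
  intro H hH Z hZ A T hT hTc Good hinv hbad hcol
  obtain ⟨c', hc'⟩ : ∃ c' : ℝ, c' = c ^ m / (4 * K * 3 ^ m) := ⟨_, rfl⟩
  have hc'0 : 0 < c' := by rw [hc']; positivity
  rw [← hc']
  have hH1 : 1 ≤ H := (le_max_right _ _).trans hH
  have hH0 : (0 : ℝ) < H := by exact_mod_cast hH1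
  obtain ⟨z, hz1, hz2, hz3, hz4, hz5⟩ := hpar H ((le_max_left _ _).trans hH)
  have hzr : 2 * r ≤ z := by exact_mod_cast hz1
  set I : (Fin m → ℕ) → Finset ℕ := fun h => (Ioc 0 H).filter (fun x => ∀ i, ∃ t ∈ T i, h i = t + x) with hI
  set HH := (Fintype.piFinset (fun i => Ioc (A i) (A i + 2 * H))).filter Good with hHH
  have hVnn : ∀ h : Fin m → ℕ, ∀ a b, 0 ≤ VV (Zh Z h) a b := by
    intro h a b
    unfold VV
    apply prod_nonneg
    intro p hp
    have hpp := Pr_prime hp
    have hp0 : (0 : ℝ) < p := by exact_mod_cast hpp.pos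
    rw [sub_nonneg, div_le_one hp0]
    have : (Zh Z h p).card ≤ p := by
      calc (Zh Z h p).card ≤ (range p).card := card_le_card (by
            intro c hc
            exact mem_range.2 (Zh_lt Z h p c hc))
        _ = p := card_range p
    exact_mod_cast this
  by_contra hcon
  -- all the sets are small
  have hsmall : ∀ h ∈ HH, ((I h).card : ℝ) ≤ c' * (H * VV (Zh Z h) 0 H) := by
    intro h hh
    rcases Finset.eq_empty_or_nonempty (I h) with h0 | h0
    · rw [h0, card_empty, Nat.cast_zero]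
      have := hVnn h 0 H
      positivity
    · by_contra hlt
      push Not at hlt
      apply hcon
      refine ⟨h, I h, filter_subset _ _, ?_, h0, hlt.le⟩
      intro x hx i
      exact (mem_filter.1 hx).2 i
  -- the lower bound
  have hlow : H * ((Fintype.piFinset T).card : ℝ) ≤ 2 * ∑ h ∈ HH, ((I h).card : ℝ) := by
    have h1 : ∀ x ∈ Ioc 0 H, ((Fintype.piFinset T).filter Good).card ≤ (HH.filter (fun h => ∀ i, ∃ t ∈ T i, h i = t + x)).card := by
      intro x hx
      rw [mem_Ioc] at hx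
      apply card_le_card_of_injOn (fun t i => t i + x)
      · intro t ht
        rw [mem_coe, mem_filter, Fintype.mem_piFinset] at ht
        rw [mem_coe, mem_filter, hHH, mem_filter, Fintype.mem_piFinset]
        refine ⟨⟨?_, hinv t x ht.2⟩, fun i => ⟨t i, ht.1 i, rfl⟩⟩
        intro i
        have := mem_Ioc.1 (hT i (ht.1 i))
        rw [mem_Ioc]
        dsimp only
        omega
      · intro t _ s _ hts
        funext i
        have := congrFun hts i
        dsimp only at this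
        omega
    have h2 : ∑ h ∈ HH, (I h).card = ∑ x ∈ Ioc 0 H, (HH.filter (fun h => ∀ i, ∃ t ∈ T i, h i = t + x)).card :=
      Finset.sum_card_bipartiteAbove_eq_sum_card_bipartiteBelow (r := fun (h : Fin m → ℕ) (x : ℕ) => ∀ i, ∃ t ∈ T i, h i = t + x)
    have h3 : H * ((Fintype.piFinset T).filter Good).card ≤ ∑ h ∈ HH, (I h).card := by
      rw [h2]
      calc H * ((Fintype.piFinset T).filter Good).card = ∑ _x ∈ Ioc 0 H, ((Fintype.piFinset T).filter Good).card := by
            rw [sum_const, Nat.card_Ioc, smul_eq_mul, Nat.sub_zero]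
        _ ≤ _ := sum_le_sum h1
    have h4 : (Fintype.piFinset T).card = ((Fintype.piFinset T).filter Good).card +
        ((Fintype.piFinset T).filter (fun t => ¬ Good t)).card :=
      (card_filter_add_card_filter_not _).symm
    have h5 : (Fintype.piFinset T).card ≤ 2 * ((Fintype.piFinset T).filter Good).card := by omega
    have h6 : H * (Fintype.piFinset T).card ≤ 2 * ∑ h ∈ HH, (I h).card := by
      calc H * (Fintype.piFinset T).card ≤ H * (2 * ((Fintype.piFinset T).filter Good).card) := Nat.mul_le_mul_left _ h5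
        _ = 2 * (H * ((Fintype.piFinset T).filter Good).card) := by ring
        _ ≤ _ := Nat.mul_le_mul_left _ h3
    exact_mod_cast h6
  -- the upper bound
  have hup : ∑ h ∈ HH, ((I h).card : ℝ) ≤ c' * (H * (K * ∏ i, (3 * (H * VV (Z i) 0 H)))) := by
    calc ∑ h ∈ HH, ((I h).card : ℝ) ≤ ∑ h ∈ HH, c' * (H * (K * ((∏ i, VV (Z i) z H) * VV (Zh Z h) 0 z))) := by
          apply sum_le_sum
          intro h hh
          refine (hsmall h hh).trans ?_
          apply mul_le_mul_of_nonneg_left _ hc'0.le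
          apply mul_le_mul_of_nonneg_left _ hH0.le
          rw [← VV_split (Zh Z h) (Nat.zero_le z) hz3]
          have h1 := large_primes hZ h (by omega) hzr B (hcol h (mem_filter.1 hh).1 (mem_filter.1 hh).2 z hz4)
          rw [← hK] at h1
          calc VV (Zh Z h) 0 z * VV (Zh Z h) z H ≤ VV (Zh Z h) 0 z * (K * ∏ i, VV (Z i) z H) :=
                mul_le_mul_of_nonneg_left h1 (hVnn h 0 z)
            _ = _ := by ring
      _ = c' * (H * (K * ((∏ i, VV (Z i) z H) * ∑ h ∈ HH, VV (Zh Z h) 0 z))) := by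
          simp only [mul_sum]
      _ ≤ c' * (H * (K * ((∏ i, VV (Z i) z H) * ∏ i, (3 * (H * VV (Z i) 0 z))))) := by
          have hp1 : 0 ≤ ∏ i, VV (Z i) z H := prod_nonneg fun i _ => VZ_nonneg (hZ i) _ _
          apply mul_le_mul_of_nonneg_left _ hc'0.le
          apply mul_le_mul_of_nonneg_left _ hH0.le
          apply mul_le_mul_of_nonneg_left _ hK0.le
          apply mul_le_mul_of_nonneg_left _ hp1
          calc ∑ h ∈ HH, VV (Zh Z h) 0 z ≤ ∑ h ∈ Fintype.piFinset (fun i => Ioc (A i) (A i + 2 * H)), VV (Zh Z h) 0 z :=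
                sum_le_sum_of_subset_of_nonneg (filter_subset _ _) (fun h _ _ => hVnn h 0 z)
            _ ≤ ∏ i, (((2 * H : ℕ) : ℝ) * VV (Z i) 0 z + ∏ p ∈ Pr 0 z, (p : ℝ)) := avg_Zh hZ z (2 * H) A
            _ ≤ _ := by
                apply Finset.prod_le_prod
                · intro i _
                  have := VZ_nonneg (hZ i) 0 z
                  have h9 : (0 : ℝ) ≤ ∏ p ∈ Pr 0 z, (p : ℝ) := prod_nonneg fun p _ => by positivity
                  positivity
                · intro i _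
                  have := hz5 (Z i) (hZ i)
                  push_cast
                  linarith
      _ = _ := by
          congr 3
          rw [← prod_mul_distrib]
          apply prod_congr rfl
          intro i _
          rw [← VV_split (Z i) (Nat.zero_le z) hz3]
          ring
  have hprod : c ^ m * ∏ i, (3 * (H * VV (Z i) 0 H)) ≤ 3 ^ m * ((Fintype.piFinset T).card : ℝ) := by
    have e1 : c ^ m * ∏ i, (3 * (H * VV (Z i) 0 H)) = 3 ^ m * ∏ i, (c * (H * VV (Z i) 0 H)) := by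
      simp only [prod_mul_distrib, prod_const, card_univ, Fintype.card_fin]
      ring
    rw [e1, Fintype.card_piFinset]
    push_cast
    apply mul_le_mul_of_nonneg_left _ (by positivity)
    apply Finset.prod_le_prod
    · intro i _
      have := VZ_nonneg (hZ i) 0 H
      positivity
    · intro i _
      exact hTc i
  -- positivity
  have hpos : 0 < ((Fintype.piFinset T).card : ℝ) := by
    rw [Fintype.card_piFinset]
    push_cast
    apply prod_pos
    intro i _
    have h1 := hTc i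
    have h2 : 0 < VV (Z i) 0 H := by
      unfold VV
      apply prod_pos
      intro p hp
      have hpp := Pr_prime hp
      have hp0 : (0 : ℝ) < p := by exact_mod_cast hpp.pos
      rw [sub_pos, div_lt_one hp0]
      exact_mod_cast (hZ i).loc p hpp
    have : 0 < c * (H * VV (Z i) 0 H) := by positivity
    linarith
  have hfin : H * ((Fintype.piFinset T).card : ℝ) ≤ H * ((Fintype.piFinset T).card : ℝ) / 2 := by
    have h1 : c' * (H * (K * ∏ i, (3 * (H * VV (Z i) 0 H)))) ≤ H * ((Fintype.piFinset T).card : ℝ) / 4 := by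
      rw [hc']
      have e1 : c ^ m / (4 * K * 3 ^ m) * (H * (K * ∏ i, (3 * (H * VV (Z i) 0 H)))) =
          H * (c ^ m * ∏ i, (3 * (H * VV (Z i) 0 H))) / (4 * 3 ^ m) := by
        field_simp
      rw [e1, div_le_div_iff₀ (by positivity) (by norm_num)]
      have h2 := mul_le_mul_of_nonneg_left hprod hH0.le
      nlinarith
    linarith
  have : 0 < H * ((Fintype.piFinset T).card : ℝ) := by positivity
  linarith

end Pool.Agent.Q204.CD
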