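import Pool.Agent.Q204.CD.Sel
import Pool.Agent.Q253.Cov.APd

/-!
# Narrow progressions with a common difference in dense subsets of several sifted windows
-/

set_option autoImplicit false

namespace Pool.Agent.Q204.CD

open Finset Filter
open Pool.Agent.Y843.HS (Pr VV Pr_mem Pr_prime VV_split)
open Pool.Agent.Q253.Thin (SysZ VZ_nonneg VZ_le_one VZ_low)
open Pool.Agent.Q253.Cov (ap_dense)

open Classical in
/-- **Common differences.** -/
theorem sim (m k r : ℕ) (hr : 1 ≤ r) (θ c B : ℝ) (hθ : 0 < θ) (hθ1 : θ ≤ 1) (hc : 0 < c) : ∃ D H₀ : ℕ, ∀ H : ℕ, H₀ ≤ H →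
    ∀ Z : Fin m → ℕ → Finset ℕ, (∀ i, SysZ r (Z i)) → ∀ A : Fin m → ℕ, ∀ T : Fin m → Finset ℕ,
    (∀ i, T i ⊆ Ioc (A i) (A i + H)) →
    (∀ i, ∀ n ∈ T i, ∀ p : ℕ, p.Prime → (p : ℝ) ≤ (H : ℝ) ^ θ → n % p ∉ Z i p) →
    (∀ i, c * (H * VV (Z i) 0 H) ≤ ((T i).card : ℝ)) →
    ∀ Good : (Fin m → ℕ) → Prop, (∀ t x, Good t → Good (fun i => t i + x)) →
    (2 * ((Fintype.piFinset T).filter (fun t => ¬ Good t)).card ≤ (Fintype.piFinset T).card) →
    (∀ h ∈ Fintype.piFinset (fun i => Ioc (A i) (A i + 2 * H)), Good h → ∀ z : ℕ, Real.log H ≤ 4 * z →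
      (((Pr z H).filter (fun p => Col Z h p)).card : ℝ) ≤ B * z) →
    ∃ d : ℕ, 1 ≤ d ∧ (d : ℝ) ≤ Real.log H ^ D ∧ ∃ j : Fin m → ℕ, ∀ i, ∀ l < k, j i + l * d ∈ T i := by
  obtain ⟨c', hc', H₁, hsel⟩ := select m r hr c B hc
  obtain ⟨D, H₂, hap⟩ := ap_dense k (m * r) θ c' hθ hθ1 hc'
  have ev1 : ∀ᶠ H : ℕ in atTop, ((m * r : ℕ) : ℝ) + 1 ≤ (H : ℝ) ^ θ :=
    ((tendsto_rpow_atTop hθ).comp tendsto_natCast_atTop_atTop).eventually_ge_atTop _
  obtain ⟨H₃, hH₃⟩ := eventually_atTop.1 ev1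
  refine ⟨D, max H₁ (max H₂ H₃), ?_⟩
  intro H hH Z hZ A T hT hav hTc Good hinv hbad hcol
  have g1 : H₁ ≤ H := (le_max_left _ _).trans hH
  have g2 : H₂ ≤ H := ((le_max_left _ _).trans (le_max_right _ _)).trans hH
  have g3 : H₃ ≤ H := ((le_max_right _ _).trans (le_max_right _ _)).trans hH
  obtain ⟨h, I, hI, hIt, hIne, hIc⟩ := hsel H g1 Z hZ A T hT hTc Good hinv hbad hcol
  have havoid : ∀ x ∈ I, ∀ p : ℕ, p.Prime → (p : ℝ) ≤ (H : ℝ) ^ θ → x % p ∉ Zh Z h p := by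
    intro x hx p hp hpH hmem
    obtain ⟨i, hi⟩ := (mem_Zh hp.pos).1 hmem
    obtain ⟨t, ht, hht⟩ := hIt x hx i
    rw [mod_sub hp.pos hht] at hi
    exact hav i t ht p hp hpH hi
  have hsys : SysZ (m * r) (Zh Z h) := by
    refine ⟨fun p hp => Zh_card_le' hZ h hp, fun p hp => ?_, fun p _ => Zh_lt Z h p⟩
    by_cases hpH : (p : ℝ) ≤ (H : ℝ) ^ θ
    · obtain ⟨x, hx⟩ := hIne
      have h1 := havoid x hx p hp hpH
      have h2 : Zh Z h p ⊂ range p := by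
        rw [Finset.ssubset_iff_of_subset (fun c hc => mem_range.2 (Zh_lt Z h p c hc))]
        exact ⟨x % p, mem_range.2 (Nat.mod_lt _ hp.pos), h1⟩
      have h3 := card_lt_card h2
      rwa [card_range] at h3
    · push Not at hpH
      have h1 := Zh_card_le' hZ h hp
      have h2 := hH₃ H g3
      have h3 : ((m * r : ℕ) : ℝ) < p := by linarith
      have h4 : m * r < p := by exact_mod_cast h3
      omega
  obtain ⟨a, d, hd1, hd2, hd3⟩ := hap H g2 (Zh Z h) hsys 0 I (by rwa [Nat.zero_add]) havoid hIc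
  refine ⟨d, hd1, hd2, fun i => h i - (a + (k - 1) * d), ?_⟩
  intro i l hl
  have h1 : k - 1 - l < k := by omega
  obtain ⟨t, ht, hht⟩ := hIt _ (hd3 (k - 1 - l) h1) i
  obtain ⟨t', ht', hht'⟩ := hIt _ (hd3 (k - 1) (by omega)) i
  have h2 : (k - 1) * d = (k - 1 - l) * d + l * d := by
    rw [← Nat.add_mul]
    congr 1
    omega
  have h3 : h i - (a + (k - 1) * d) + l * d = t := by omega
  dsimp only
  rw [h3]
  exact ht

end Pool.Agent.Q204.CD
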