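import Pool.Agent.Q204.CD.Sim

/-!
# Systems of linear forms in several windows: common differences
-/

set_option autoImplicit false

namespace Pool.Agent.Q204.CD

open Finset Filter
open Pool.Agent.Y843.HS (Pr VV Pr_mem Pr_prime VV_split)
open Pool.Agent.Q253.Thin (SysZ VZ_nonneg VZ_le_one VZ_low IS int_lower)

/-- the classes modulo `p` where one of the forms `u j * n + v j` is divisible by `p` -/
def Zt {s : ℕ} (u v : Fin s → ℕ) (p : ℕ) : Finset ℕ := (range p).filter (fun c => ∃ j, p ∣ u j * c + v j)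

/-- the forms have no fixed prime divisor -/
def Adm {s : ℕ} (u v : Fin s → ℕ) : Prop := ∀ p : ℕ, p.Prime → ∃ n : ℕ, ∀ j, ¬ p ∣ u j * n + v j

theorem mem_Zt {s : ℕ} {u v : Fin s → ℕ} {p n : ℕ} (hp : 0 < p) : n % p ∈ Zt u v p ↔ ∃ j, p ∣ u j * n + v j := by
  unfold Zt
  rw [mem_filter, mem_range]
  have h : ∀ j, p ∣ u j * (n % p) + v j ↔ p ∣ u j * n + v j := by
    intro j
    have h1 : u j * (n % p) + v j ≡ u j * n + v j [MOD p] := ((Nat.mod_modEq n p).mul_left (u j)).add_right (v j)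
    rw [Nat.dvd_iff_mod_eq_zero, Nat.dvd_iff_mod_eq_zero, h1]
  simp only [h]
  exact ⟨fun h => h.2, fun h => ⟨Nat.mod_lt _ hp, h⟩⟩

theorem Zt_sys {s : ℕ} {u v : Fin s → ℕ} (hadm : Adm u v) : SysZ s (Zt u v) where
  card p hp := by
    classical
    have h1 : Zt u v p ⊆ univ.biUnion (fun j : Fin s => (range p).filter (fun c => p ∣ u j * c + v j)) := by
      intro c hc
      unfold Zt at hc
      rw [mem_filter] at hc
      obtain ⟨j, hj⟩ := hc.2
      rw [mem_biUnion]
      exact ⟨j, mem_univ _, mem_filter.2 ⟨hc.1, hj⟩⟩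
    refine (card_le_card h1).trans (card_biUnion_le.trans ?_)
    calc ∑ j : Fin s, ((range p).filter (fun c => p ∣ u j * c + v j)).card ≤ ∑ _j : Fin s, 1 := by
          apply sum_le_sum
          intro j _
          rw [card_le_one]
          intro c hc d hd
          rw [mem_filter, mem_range] at hc hd
          obtain ⟨n, hn⟩ := hadm p hp
          have hu : ¬ p ∣ u j := by
            intro hu
            apply hn j
            have hv : p ∣ v j := (Nat.dvd_add_right (dvd_mul_of_dvd_left hu c)).1 hc.2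
            exact dvd_add (dvd_mul_of_dvd_left hu n) hv
          have h2 : u j * c + v j ≡ u j * d + v j [MOD p] :=
            (Nat.modEq_zero_iff_dvd.2 hc.2).trans (Nat.modEq_zero_iff_dvd.2 hd.2).symm
          have h3 : u j * c ≡ u j * d [MOD p] := Nat.ModEq.add_right_cancel' (v j) h2
          have h4 : c ≡ d [MOD p] := Nat.ModEq.cancel_left_of_coprime ((Nat.Prime.coprime_iff_not_dvd hp).2 hu) h3
          exact Nat.ModEq.eq_of_lt_of_lt h4 hc.1 hd.1
      _ = s := by simp
  loc p hp := by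
    obtain ⟨n, hn⟩ := hadm p hp
    have h2 : Zt u v p ⊂ range p := by
      have hsub : Zt u v p ⊆ range p := by
        unfold Zt
        exact filter_subset _ _
      rw [Finset.ssubset_iff_of_subset hsub]
      refine ⟨n % p, mem_range.2 (Nat.mod_lt _ hp.pos), ?_⟩
      rw [mem_Zt hp.pos]
      push Not
      exact hn
    have h3 := card_lt_card h2
    rwa [card_range] at h3
  lt p _ c hc := by
    unfold Zt at hc
    exact mem_range.1 (mem_filter.1 hc).1

/-- the forms in different windows take different values, up to the leading coefficients -/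
def GoodT {m s : ℕ} (u v : Fin m → Fin s → ℕ) (t : Fin m → ℕ) : Prop :=
  ∀ i i' : Fin m, i ≠ i' → ∀ j j' : Fin s, u i' j' * (u i j * t i + v i j) ≠ u i j * (u i' j' * t i' + v i' j')

theorem GoodT_add {m s : ℕ} {u v : Fin m → Fin s → ℕ} {t : Fin m → ℕ} (x : ℕ) (h : GoodT u v t) :
    GoodT u v (fun i => t i + x) := by
  intro i i' hii j j' he
  apply h i i' hii j j'
  have e1 : u i' j' * (u i j * (t i + x) + v i j) = u i' j' * (u i j * t i + v i j) + u i j * u i' j' * x := by ring
  have e2 : u i j * (u i' j' * (t i' + x) + v i' j') = u i j * (u i' j' * t i' + v i' j') + u i j * u i' j' * x := by ring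
  rw [e1, e2] at he
  omega

/-- the collisions -/
theorem colT_dvd {m s : ℕ} {u v : Fin m → Fin s → ℕ} {h : Fin m → ℕ} {p : ℕ} (hp : p.Prime)
    (hc : Col (fun i => Zt (u i) (v i)) h p) :
    ∃ i i' : Fin m, i ≠ i' ∧ ∃ j j' : Fin s,
      p ∣ Int.natAbs ((u i' j' * (u i j * h i + v i j) : ℕ) - (u i j * (u i' j' * h i' + v i' j') : ℕ) : ℤ) := by
  obtain ⟨i, i', hii, c, h1, h2⟩ := hc
  rw [mem_Zt hp.pos] at h1 h2
  obtain ⟨j, h1⟩ := h1
  obtain ⟨j', h2⟩ := h2
  refine ⟨i, i', hii, j, j', ?_⟩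
  rw [← Int.natCast_dvd]
  have h3 : (p : ℤ) ∣ ((u i j * (h i + (p - 1) * c) + v i j : ℕ) : ℤ) := by exact_mod_cast h1
  have h4 : (p : ℤ) ∣ ((u i' j' * (h i' + (p - 1) * c) + v i' j' : ℕ) : ℤ) := by exact_mod_cast h2
  have h5 := dvd_sub (dvd_mul_of_dvd_right h3 (u i' j' : ℤ)) (dvd_mul_of_dvd_right h4 (u i j : ℤ))
  have e : ((u i' j' * (u i j * h i + v i j) : ℕ) - (u i j * (u i' j' * h i' + v i' j') : ℕ) : ℤ) =
      (u i' j' : ℤ) * ((u i j * (h i + (p - 1) * c) + v i j : ℕ) : ℤ) -
        (u i j : ℤ) * ((u i' j' * (h i' + (p - 1) * c) + v i' j' : ℕ) : ℤ) := by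
    push_cast
    ring
  rw [e]
  exact h5

open Classical in
/-- few primes have collisions -/
theorem colT_card {m s : ℕ} {u v : Fin m → Fin s → ℕ} {h : Fin m → ℕ} {W z H : ℕ} (hW : 2 ≤ W) (hg : GoodT u v h)
    (hu : ∀ i j, u i j ≤ W) (hh : ∀ i j, u i j * h i + v i j ≤ W) :
    (((Pr z H).filter (fun p => Col (fun i => Zt (u i) (v i)) h p)).card : ℝ) ≤ 2 * (m * s) ^ 2 * Real.log W / Real.log 2 := by
  have hWr : (2 : ℝ) ≤ W := by exact_mod_cast hW
  have hl2 : 0 < Real.log 2 := Real.log_pos (by norm_num)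
  set F : (Fin m × Fin s) × (Fin m × Fin s) → ℕ := fun w => Int.natAbs ((u w.2.1 w.2.2 * (u w.1.1 w.1.2 * h w.1.1 + v w.1.1 w.1.2) : ℕ) -
    (u w.1.1 w.1.2 * (u w.2.1 w.2.2 * h w.2.1 + v w.2.1 w.2.2) : ℕ) : ℤ) with hF
  set J : Finset ((Fin m × Fin s) × (Fin m × Fin s)) := univ.filter (fun w => w.1.1 ≠ w.2.1) with hJ
  have hF0 : ∀ w ∈ J, F w ≠ 0 := by
    intro w hw
    rw [hJ, mem_filter] at hw
    have h1 := hg w.1.1 w.2.1 hw.2 w.1.2 w.2.2
    rw [hF]
    dsimp only
    omega
  have hFX : ∀ w, F w ≤ W ^ 2 := by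
    intro w
    have h1 : u w.2.1 w.2.2 * (u w.1.1 w.1.2 * h w.1.1 + v w.1.1 w.1.2) ≤ W * W := Nat.mul_le_mul (hu _ _) (hh _ _)
    have h2 : u w.1.1 w.1.2 * (u w.2.1 w.2.2 * h w.2.1 + v w.2.1 w.2.2) ≤ W * W := Nat.mul_le_mul (hu _ _) (hh _ _)
    rw [hF, sq]
    dsimp only
    omega
  have hsub : (Pr z H).filter (fun p => Col (fun i => Zt (u i) (v i)) h p) ⊆ J.biUnion (fun w => (F w).primeFactors) := by
    intro p hp
    rw [mem_filter] at hp
    have hpp := Pr_prime hp.1
    obtain ⟨i, i', hii, j, j', hd⟩ := colT_dvd hpp hp.2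
    rw [mem_biUnion]
    have hmem : (((i, j), (i', j')) : (Fin m × Fin s) × (Fin m × Fin s)) ∈ J := by
      rw [hJ, mem_filter]
      exact ⟨mem_univ _, hii⟩
    refine ⟨((i, j), (i', j')), hmem, ?_⟩
    rw [Nat.mem_primeFactors]
    exact ⟨hpp, hd, hF0 _ hmem⟩
  have hpf : ∀ N : ℕ, 1 ≤ N → (N.primeFactors.card : ℝ) * Real.log 2 ≤ Real.log N := by
    intro N hN
    have h1 : 2 ^ N.primeFactors.card ≤ N := by
      calc 2 ^ N.primeFactors.card = ∏ _p ∈ N.primeFactors, 2 := by rw [prod_const]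
        _ ≤ ∏ p ∈ N.primeFactors, p := Finset.prod_le_prod' fun p hp => (Nat.prime_of_mem_primeFactors hp).two_le
        _ ≤ N := Nat.le_of_dvd hN (Nat.prod_primeFactors_dvd N)
    have h2 : ((2 : ℝ) ^ N.primeFactors.card) ≤ N := by exact_mod_cast h1
    have h3 := Real.log_le_log (by positivity) h2
    rwa [Real.log_pow] at h3
  rw [le_div_iff₀ hl2]
  calc (((Pr z H).filter (fun p => Col (fun i => Zt (u i) (v i)) h p)).card : ℝ) * Real.log 2 ≤
        ((∑ w ∈ J, (F w).primeFactors.card : ℕ) : ℝ) * Real.log 2 := by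
        apply mul_le_mul_of_nonneg_right _ hl2.le
        exact_mod_cast (card_le_card hsub).trans card_biUnion_le
    _ = ∑ w ∈ J, ((F w).primeFactors.card : ℝ) * Real.log 2 := by
        push_cast
        rw [sum_mul]
    _ ≤ ∑ _w ∈ J, 2 * Real.log W := by
        apply sum_le_sum
        intro w hw
        have h0 := hF0 w hw
        have h1 := hpf (F w) (by omega)
        have h2 : (F w : ℝ) ≤ (W : ℝ) ^ 2 := by exact_mod_cast hFX w
        have h3 : (0 : ℝ) < F w := by exact_mod_cast Nat.pos_of_ne_zero h0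
        have h4 := Real.log_le_log h3 h2
        rw [Real.log_pow] at h4
        push_cast at h4
        linarith
    _ = (J.card : ℝ) * (2 * Real.log W) := by rw [sum_const, nsmul_eq_mul]
    _ ≤ ((m : ℝ) * s) ^ 2 * (2 * Real.log W) := by
        apply mul_le_mul_of_nonneg_right
        · have h1 : J.card ≤ (m * s) ^ 2 := by
            calc J.card ≤ (univ : Finset ((Fin m × Fin s) × (Fin m × Fin s))).card := card_le_univ _
              _ = (m * s) ^ 2 := by
                rw [card_univ, Fintype.card_prod, Fintype.card_prod, Fintype.card_fin, Fintype.card_fin, sq]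
          exact_mod_cast h1
        · have := Real.log_nonneg (by linarith : (1 : ℝ) ≤ W)
          positivity
    _ = _ := by ring

open Classical in
/-- few tuples are bad -/
theorem badT_card {m s : ℕ} {u v : Fin m → Fin s → ℕ} (hu : ∀ i j, 1 ≤ u i j) (T : Fin m → Finset ℕ)
    (hT : ∀ i, 2 * (m * s) ^ 2 ≤ (T i).card) :
    2 * ((Fintype.piFinset T).filter (fun t => ¬ GoodT u v t)).card ≤ (Fintype.piFinset T).card := by
  set J : Finset ((Fin m × Fin s) × (Fin m × Fin s)) := univ.filter (fun w => w.1.1 ≠ w.2.1) with hJ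
  have hJc : J.card ≤ (m * s) ^ 2 := by
    calc J.card ≤ (univ : Finset ((Fin m × Fin s) × (Fin m × Fin s))).card := card_le_univ _
      _ = (m * s) ^ 2 := by
        rw [card_univ, Fintype.card_prod, Fintype.card_prod, Fintype.card_fin, Fintype.card_fin, sq]
  have hsub : (Fintype.piFinset T).filter (fun t => ¬ GoodT u v t) ⊆ J.biUnion
      (fun w => (Fintype.piFinset T).filter (fun t => u w.2.1 w.2.2 * (u w.1.1 w.1.2 * t w.1.1 + v w.1.1 w.1.2) =
        u w.1.1 w.1.2 * (u w.2.1 w.2.2 * t w.2.1 + v w.2.1 w.2.2))) := by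
    intro t ht
    rw [mem_filter] at ht
    have h1 := ht.2
    unfold GoodT at h1
    push Not at h1
    obtain ⟨i, i', hii, j, j', he⟩ := h1
    rw [mem_biUnion]
    refine ⟨((i, j), (i', j')), ?_, ?_⟩
    · rw [hJ, mem_filter]
      exact ⟨mem_univ _, hii⟩
    · rw [mem_filter]
      exact ⟨ht.1, he⟩
  have hone : ∀ w ∈ J, 2 * (m * s) ^ 2 *
      ((Fintype.piFinset T).filter (fun t => u w.2.1 w.2.2 * (u w.1.1 w.1.2 * t w.1.1 + v w.1.1 w.1.2) =
        u w.1.1 w.1.2 * (u w.2.1 w.2.2 * t w.2.1 + v w.2.1 w.2.2))).card ≤ (Fintype.piFinset T).card := by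
    rintro ⟨⟨i, j⟩, ⟨i', j'⟩⟩ hw
    rw [hJ, mem_filter] at hw
    have hne : i ≠ i' := hw.2
    dsimp only
    set E := (Fintype.piFinset T).filter (fun t => u i' j' * (u i j * t i + v i j) = u i j * (u i' j' * t i' + v i' j')) with hE
    calc 2 * (m * s) ^ 2 * E.card ≤ (T i).card * E.card := Nat.mul_le_mul_right _ (hT i)
      _ = (T i ×ˢ E).card := (card_product _ _).symm
      _ ≤ (Fintype.piFinset T).card := by
        apply card_le_card_of_injOn (fun st => Function.update st.2 i st.1)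
        · rintro ⟨s, t⟩ hst
          rw [mem_coe, mem_product, hE, mem_filter, Fintype.mem_piFinset] at hst
          rw [mem_coe, Fintype.mem_piFinset]
          intro l
          dsimp only
          by_cases hl : l = i
          · subst hl
            rw [Function.update_self]
            exact hst.1
          · rw [Function.update_of_ne hl]
            exact hst.2.1 l
        · rintro ⟨s, t⟩ hst ⟨s', t'⟩ hst' he
          rw [mem_coe, mem_product, hE, mem_filter, Fintype.mem_piFinset] at hst hst'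
          dsimp only at he hst hst'
          have h1 : s = s' := by
            have := congrFun he i
            rwa [Function.update_self, Function.update_self] at this
          have h2 : ∀ l, l ≠ i → t l = t' l := by
            intro l hl
            have := congrFun he l
            rwa [Function.update_of_ne hl, Function.update_of_ne hl] at this
          have h3 : t i = t' i := by
            have e1 := hst.2.2
            have e2 := hst'.2.2
            rw [← h2 i' (Ne.symm hne)] at e2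
            have e3 : u i' j' * (u i j * t i + v i j) = u i' j' * (u i j * t' i + v i j) := by rw [e1, e2]
            have e4 := Nat.eq_of_mul_eq_mul_left (hu i' j') e3
            have e5 : u i j * t i = u i j * t' i := by omega
            exact Nat.eq_of_mul_eq_mul_left (hu i j) e5
          have h4 : t = t' := by
            funext l
            by_cases hl : l = i
            · rw [hl]
              exact h3
            · exact h2 l hl
          rw [h1, h4]
  rcases Nat.eq_zero_or_pos (m * s) with hm | hm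
  · have hJe : J = ∅ := by
      rw [← card_eq_zero]
      rw [hm] at hJc
      simpa using hJc
    rw [hJe, biUnion_empty, subset_empty] at hsub
    rw [hsub, card_empty]
    omega
  · have h1 : 2 * (m * s) ^ 2 * ((Fintype.piFinset T).filter (fun t => ¬ GoodT u v t)).card ≤ (m * s) ^ 2 * (Fintype.piFinset T).card := by
      calc 2 * (m * s) ^ 2 * ((Fintype.piFinset T).filter (fun t => ¬ GoodT u v t)).card ≤
            2 * (m * s) ^ 2 * ∑ w ∈ J, ((Fintype.piFinset T).filter (fun t => u w.2.1 w.2.2 * (u w.1.1 w.1.2 * t w.1.1 + v w.1.1 w.1.2) =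
              u w.1.1 w.1.2 * (u w.2.1 w.2.2 * t w.2.1 + v w.2.1 w.2.2))).card :=
            Nat.mul_le_mul_left _ ((card_le_card hsub).trans card_biUnion_le)
        _ = ∑ w ∈ J, 2 * (m * s) ^ 2 * ((Fintype.piFinset T).filter (fun t => u w.2.1 w.2.2 * (u w.1.1 w.1.2 * t w.1.1 + v w.1.1 w.1.2) =
              u w.1.1 w.1.2 * (u w.2.1 w.2.2 * t w.2.1 + v w.2.1 w.2.2))).card := by
            rw [mul_sum]
        _ ≤ ∑ _w ∈ J, (Fintype.piFinset T).card := sum_le_sum hone
        _ = J.card * (Fintype.piFinset T).card := by rw [sum_const, smul_eq_mul]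
        _ ≤ (m * s) ^ 2 * (Fintype.piFinset T).card := Nat.mul_le_mul_right _ hJc
    have h2 : (m * s) ^ 2 * (2 * ((Fintype.piFinset T).filter (fun t => ¬ GoodT u v t)).card) ≤ (m * s) ^ 2 * (Fintype.piFinset T).card := by
      calc (m * s) ^ 2 * (2 * ((Fintype.piFinset T).filter (fun t => ¬ GoodT u v t)).card) =
          2 * (m * s) ^ 2 * ((Fintype.piFinset T).filter (fun t => ¬ GoodT u v t)).card := by ring
        _ ≤ _ := h1
    exact Nat.le_of_mul_le_mul_left h2 (by positivity)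

/-- **Common differences for systems of linear forms.** -/
theorem tup_sim (s : ℕ) (hs : 1 ≤ s) : ∃ t : ℕ, 1 ≤ t ∧ ∃ c : ℝ, 0 < c ∧ ∀ (m k C : ℕ) (h ε : ℝ), 0 < h → h ≤ 1 → 0 < ε →
    ∃ D X₀ : ℕ, ∀ X : ℕ, X₀ ≤ X → ∀ H : ℕ, (X : ℝ) ^ h ≤ H → H ≤ X → ∀ u v : Fin m → Fin s → ℕ, ∀ A : Fin m → ℕ,
      (∀ i, Adm (u i) (v i)) → (∀ i j, 1 ≤ u i j ∧ u i j * (A i + H) + v i j ≤ X ^ C) →
      (∀ i, c * (H * VV (Zt (u i) (v i)) 0 H) ≤ ((IS t H (A i) (A i + H) (Zt (u i) (v i))).card : ℝ)) ∧
      ∀ S : Fin m → Finset ℕ, (∀ i, S i ⊆ IS t H (A i) (A i + H) (Zt (u i) (v i))) →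
      (∀ i, ε * ((IS t H (A i) (A i + H) (Zt (u i) (v i))).card : ℝ) ≤ (S i).card) →
      ∃ d : ℕ, 1 ≤ d ∧ (d : ℝ) ≤ Real.log H ^ D ∧ ∃ j : Fin m → ℕ, ∀ i, ∀ l < k, j i + l * d ∈ S i := by
  classical
  obtain ⟨t, ht, c, hc, hlow⟩ := int_lower s hs
  obtain ⟨cV, hcV, hVlow⟩ := VZ_low s hs
  refine ⟨t, ht, c, hc, ?_⟩
  intro m k C h ε hh0 hh1 hε
  have hl2 : 0 < Real.log 2 := Real.log_pos (by norm_num)
  have ht0 : (0 : ℝ) < 1 / t := by
    have : (0 : ℝ) < t := by exact_mod_cast ht
    positivity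
  have ht1 : (1 : ℝ) / t ≤ 1 := by
    rw [div_le_one (by exact_mod_cast ht)]
    exact_mod_cast ht
  obtain ⟨X₁, H1⟩ := hlow 1 one_pos
  obtain ⟨D, H₂, H2⟩ := sim m k s hs (1 / t) (ε * c) (8 * (m * s) ^ 2 * (C + 1) / (h * Real.log 2)) ht0 ht1 (by positivity)
  have ev1 : ∀ᶠ X : ℕ in atTop, (H₂ : ℝ) + X₁ + 3 ≤ (X : ℝ) ^ h :=
    ((tendsto_rpow_atTop hh0).comp tendsto_natCast_atTop_atTop).eventually_ge_atTop _
  have ev2 : ∀ᶠ H : ℕ in atTop, 2 * ((m : ℝ) * s) ^ 2 * Real.log H ^ s ≤ ε * c * cV * H := by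
    have h1 : (fun x : ℝ => Real.log x ^ s) =o[atTop] fun x => x ^ (1 : ℝ) :=
      (isLittleO_log_rpow_rpow_atTop (s : ℝ) (by norm_num : (0 : ℝ) < 1)).congr_left (fun x => by rw [Real.rpow_natCast])
    have h2 := h1.def (show (0 : ℝ) < ε * c * cV / (2 * ((m : ℝ) * s) ^ 2 + 1) by positivity)
    have h3 := (tendsto_natCast_atTop_atTop (R := ℝ)).eventually h2
    filter_upwards [h3, eventually_ge_atTop 1] with X hX h1
    have hX1 : (1 : ℝ) ≤ X := by exact_mod_cast h1
    have hl := pow_nonneg (Real.log_nonneg hX1) s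
    rw [Real.norm_of_nonneg hl, Real.norm_of_nonneg (by positivity), Real.rpow_one] at hX
    have h4 : (2 * ((m : ℝ) * s) ^ 2 + 1) * Real.log X ^ s ≤ ε * c * cV * X := by
      calc (2 * ((m : ℝ) * s) ^ 2 + 1) * Real.log X ^ s ≤ (2 * ((m : ℝ) * s) ^ 2 + 1) * (ε * c * cV / (2 * ((m : ℝ) * s) ^ 2 + 1) * X) :=
            mul_le_mul_of_nonneg_left hX (by positivity)
        _ = _ := by field_simp
    linarith
  obtain ⟨H₃, hH₃⟩ := eventually_atTop.1 ev2
  have ev3 : ∀ᶠ X : ℕ in atTop, (H₃ : ℝ) ≤ (X : ℝ) ^ h :=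
    ((tendsto_rpow_atTop hh0).comp tendsto_natCast_atTop_atTop).eventually_ge_atTop _
  obtain ⟨X₂, hX₂⟩ := eventually_atTop.1 (ev1.and ev3)
  refine ⟨D, max X₂ 3, ?_⟩
  intro X hX H hH hHX' u v A hadm huv
  obtain ⟨g2, g3⟩ := hX₂ X ((le_max_left _ _).trans hX)
  have hX3 : 3 ≤ X := (le_max_right _ _).trans hX
  have hXr : (3 : ℝ) ≤ X := by exact_mod_cast hX3
  have hH₂0 : (0 : ℝ) ≤ H₂ := Nat.cast_nonneg _
  have hX₁0 : (0 : ℝ) ≤ X₁ := Nat.cast_nonneg _
  have hXH : H₂ ≤ H := by
    have : (H₂ : ℝ) ≤ H := by linarith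
    exact_mod_cast this
  have hX1H : X₁ ≤ H := by
    have : (X₁ : ℝ) ≤ H := by linarith
    exact_mod_cast this
  have hH3H : H₃ ≤ H := by
    have : (H₃ : ℝ) ≤ H := by linarith
    exact_mod_cast this
  have hH2 : (3 : ℝ) ≤ H := by linarith
  have hH2n : 3 ≤ H := by exact_mod_cast hH2
  have hHX : (H : ℝ) ≤ X := by exact_mod_cast hHX'
  have hlX : 0 < Real.log X := Real.log_pos (by linarith)
  have hlH : 0 < Real.log H := Real.log_pos (by linarith)
  have hlHX : Real.log H ≤ Real.log X := Real.log_le_log (by linarith) hHX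
  have hlXH : h * Real.log X ≤ Real.log H := by
    have := Real.log_le_log (by positivity) hH
    rwa [Real.log_rpow (by linarith)] at this
  have hdens : ∀ i, c * (H * VV (Zt (u i) (v i)) 0 H) ≤ ((IS t H (A i) (A i + H) (Zt (u i) (v i))).card : ℝ) := by
    intro i
    have h1 := H1 H hX1H (Zt (u i) (v i)) (Zt_sys (hadm i)) (A i) (A i + H) (by push_cast; linarith)
    push_cast at h1
    have e : (A i : ℝ) + H - A i = H := by ring
    rwa [e] at h1
  refine ⟨hdens, ?_⟩
  intro S hS hSc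
  have hSlow : ∀ i, ε * c * (H * VV (Zt (u i) (v i)) 0 H) ≤ ((S i).card : ℝ) := by
    intro i
    refine le_trans ?_ (hSc i)
    calc ε * c * (H * VV (Zt (u i) (v i)) 0 H) = ε * (c * (H * VV (Zt (u i) (v i)) 0 H)) := by ring
      _ ≤ _ := mul_le_mul_of_nonneg_left (hdens i) hε.le
  have hbig : ∀ i, 2 * (m * s) ^ 2 ≤ (S i).card := by
    intro i
    have h4 := hVlow H (by omega) (Zt (u i) (v i)) (Zt_sys (hadm i))
    have h5 : 2 * ((m : ℝ) * s) ^ 2 ≤ ((S i).card : ℝ) := by
      refine le_trans ?_ (hSlow i)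
      calc 2 * ((m : ℝ) * s) ^ 2 ≤ ε * c * cV * H / Real.log H ^ s := by
            rw [le_div_iff₀ (by positivity)]
            exact hH₃ H hH3H
        _ = ε * c * (H * (cV / Real.log H ^ s)) := by ring
        _ ≤ _ := by gcongr
    exact_mod_cast h5
  exact H2 H hXH (fun i => Zt (u i) (v i)) (fun i => Zt_sys (hadm i)) A S
    (fun i n hn => by
      have := hS i hn
      unfold IS at this
      exact (mem_filter.1 this).1) (by
      intro i n hn p hpp hpH
      have := hS i hn
      unfold IS at this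
      exact (mem_filter.1 this).2 p hpp hpH) hSlow (GoodT u v) (fun t x ht => GoodT_add x ht)
      (badT_card (fun i j => (huv i j).1) S hbig) (by
      intro hv hhv hg z hz
      have hpos : 1 ≤ X ^ C := Nat.one_le_pow _ _ (by omega)
      have h1 : ∀ i j, u i j ≤ 2 * X ^ C := by
        intro i j
        obtain ⟨h1, h3⟩ := huv i j
        have h4 : u i j * 1 ≤ u i j * (A i + H) := Nat.mul_le_mul_left _ (by omega)
        omega
      have h2 : ∀ i j, u i j * hv i + v i j ≤ 2 * X ^ C := by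
        intro i j
        obtain ⟨h1, h3⟩ := huv i j
        rw [Fintype.mem_piFinset] at hhv
        have h4 := mem_Ioc.1 (hhv i)
        have h5 : u i j * hv i ≤ u i j * (A i + 2 * H) := Nat.mul_le_mul_left _ h4.2
        have h6 : u i j * (A i + 2 * H) = u i j * (A i + H) + u i j * H := by ring
        have h7 : u i j * H ≤ u i j * (A i + H) := Nat.mul_le_mul_left _ (by omega)
        omega
      refine (colT_card (by omega) hg h1 h2).trans ?_
      have hz0 : Real.log X ≤ 4 * z / h := by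
        rw [le_div_iff₀ hh0]
        linarith
      have hlW : Real.log ((2 * X ^ C : ℕ) : ℝ) ≤ (C + 1) * (4 * z / h) := by
        push_cast
        rw [Real.log_mul (by norm_num) (by positivity), Real.log_pow]
        have h8 : Real.log 2 ≤ Real.log X := Real.log_le_log (by norm_num) (by linarith)
        calc Real.log 2 + C * Real.log X ≤ Real.log X + C * Real.log X := by linarith
          _ = (C + 1) * Real.log X := by ring
          _ ≤ _ := mul_le_mul_of_nonneg_left hz0 (by positivity)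
      calc 2 * ((m : ℝ) * s) ^ 2 * Real.log ((2 * X ^ C : ℕ) : ℝ) / Real.log 2 ≤
            2 * ((m : ℝ) * s) ^ 2 * ((C + 1) * (4 * z / h)) / Real.log 2 := by gcongr
        _ = _ := by
          field_simp
          ring)

end Pool.Agent.Q204.CD
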